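import Pool.Agent.Work.MP_adbdc7_gt.Element

/-!
The stable centraliser of `g = α ^ 5` in `Γ` is infinite cyclic.
-/

open scoped MatrixGroups

namespace Pool.Agent.Work.MP_adbdc7_gt

open Spec

/-- The element `g` as an element of `Γ`. -/
noncomputable def gg : Gam := ⟨alG ^ 5, alG_pow_mem⟩

lemma alG_fst_pow (m : ℕ) :
    ((alG.1 ^ m : SL(2, ℝ)) : Matrix (Fin 2) (Fin 2) ℝ) = !![lam ^ m, 0; 0, mu ^ m] := by
  induction m with
  | zero => simp [Matrix.one_fin_two]
  | succ n ih =>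
    rw [pow_succ, Matrix.SpecialLinearGroup.coe_mul, ih, alG_fst, Matrix.mul_fin_two]
    simp [pow_succ]

lemma diag_of_commute {h : SL(2, ℝ)} {m : ℕ} (hm : m ≠ 0) (hc : h * alG.1 ^ m = alG.1 ^ m * h) :
    h 0 1 = 0 ∧ h 1 0 = 0 := by
  have hc' := congrArg (fun A : SL(2, ℝ) => (A : Matrix (Fin 2) (Fin 2) ℝ)) hc
  simp only [Matrix.SpecialLinearGroup.coe_mul, alG_fst_pow] at hc'
  have e01 := congrFun (congrFun hc' 0) 1
  have e10 := congrFun (congrFun hc' 1) 0
  rw [Matrix.mul_apply, Matrix.mul_apply, Fin.sum_univ_two, Fin.sum_univ_two] at e01 e10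
  simp only [Matrix.of_apply, Matrix.cons_val', Matrix.cons_val_zero,
    Matrix.cons_val_fin_one, Matrix.cons_val_one, mul_zero, zero_mul, zero_add, add_zero]
    at e01 e10
  have hne : lam ^ m - mu ^ m ≠ 0 :=
    (sub_pos.2 (pow_lt_pow_left₀ mu_lt_lam mu_pos.le hm)).ne'
  constructor
  · have : h 0 1 * (lam ^ m - mu ^ m) = 0 := by linear_combination -e01
    exact (mul_eq_zero.1 this).resolve_right hne
  · have : h 1 0 * (lam ^ m - mu ^ m) = 0 := by linear_combination e10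
    exact (mul_eq_zero.1 this).resolve_right hne

/-- The stable centraliser. -/
noncomputable abbrev SC : Subgroup Gam := stableCentralizer gg

lemma SC_diag (h : SC) : h.1.1.1 0 1 = 0 ∧ h.1.1.1 1 0 = 0 := by
  obtain ⟨n, hn, hc⟩ := h.2
  have hc1 := congrArg (fun A : Gam => A.1.1) hc
  have hc2 : h.1.1.1 * alG.1 ^ (5 * n) = alG.1 ^ (5 * n) * h.1.1.1 := by
    rw [pow_mul]
    exact hc1
  exact diag_of_commute (by omega) hc2

lemma SC_det (h : SC) : h.1.1.1 0 0 * h.1.1.1 1 1 = 1 := by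
  have := h.1.1.1.2
  rw [Matrix.det_fin_two] at this
  rw [(SC_diag h).1] at this
  linarith

lemma SC_ne (h : SC) : h.1.1.1 0 0 ≠ 0 := by
  intro h0
  have := SC_det h
  rw [h0, zero_mul] at this
  exact zero_ne_one this

/-- The translation length homomorphism. -/
noncomputable def ff (h : SC) : ℝ := Real.log |h.1.1.1 0 0|

lemma ff_mul (h k : SC) : ff (h * k) = ff h + ff k := by
  have e : (h * k).1.1.1 0 0 = h.1.1.1 0 0 * k.1.1.1 0 0 := by
    have : (h * k).1.1.1 0 0 = h.1.1.1 0 0 * k.1.1.1 0 0 + h.1.1.1 0 1 * k.1.1.1 1 0 := by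
      change ((h.1.1.1 * k.1.1.1 : SL(2, ℝ)) : Matrix (Fin 2) (Fin 2) ℝ) 0 0 = _
      rw [Matrix.SpecialLinearGroup.coe_mul, Matrix.mul_apply, Fin.sum_univ_two]
    rw [this, (SC_diag h).1, zero_mul, add_zero]
  rw [ff, e, abs_mul, Real.log_mul (abs_ne_zero.2 (SC_ne h)) (abs_ne_zero.2 (SC_ne k))]
  rfl

/-- Elements of the stable centraliser come from `R[i]`. -/
lemma SC_elt (h : SC) : ∃ (b : O) (hb : nrd (1 + 3 * b) = 1), h.1.1 = toG (1 + 3 * b) hb ∧
    (1 + 3 * b).imJ = 0 ∧ (1 + 3 * b).imK = 0 := by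
  obtain ⟨b, hb, e⟩ := h.1.2
  refine ⟨b, hb, e, ?_⟩
  have hd := SC_diag h
  rw [e] at hd
  obtain ⟨d1, d2⟩ := hd
  have d1' : 7 * (s1 (1 + 3 * b).imJ + s1 (1 + 3 * b).imK * lam) = 0 := d1
  have d2' : s1 (1 + 3 * b).imJ + s1 (1 + 3 * b).imK * mu = 0 := d2
  have hK : s1 (1 + 3 * b).imK = 0 := by
    have : s1 (1 + 3 * b).imK * (lam - mu) = 0 := by linear_combination d1' / 7 - d2'
    exact (mul_eq_zero.1 this).resolve_right lam_ne_mu
  rw [hK, zero_mul, add_zero] at d2'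
  exact ⟨s1_eq_zero.1 d2', s1_eq_zero.1 hK⟩

lemma ff_injective' (h : SC) (h0 : ff h = 0) : h = 1 := by
  obtain ⟨b, hb, e, hJ, hK⟩ := SC_elt h
  have habs : |h.1.1.1 0 0| = 1 := by
    rcases Real.log_eq_zero.1 h0 with h1 | h1 | h1
    · exact absurd (abs_eq_zero.1 h1) (SC_ne h)
    · exact h1
    · linarith [abs_nonneg (h.1.1.1 0 0)]
  have hdet := SC_det h
  have e00 : h.1.1.1 0 0 = s1 (1 + 3 * b).re + s1 (1 + 3 * b).imI * lam := by rw [e]; rfl
  have e11 : h.1.1.1 1 1 = s1 (1 + 3 * b).re + s1 (1 + 3 * b).imI * mu := by rw [e]; rfl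
  have hsame : h.1.1.1 0 0 = h.1.1.1 1 1 := by
    rcases eq_or_eq_neg_of_abs_eq habs with h1 | h1
    · rw [h1] at hdet ⊢; linarith
    · rw [h1] at hdet ⊢; linarith
  have hI : s1 (1 + 3 * b).imI = 0 := by
    have : s1 (1 + 3 * b).imI * (lam - mu) = 0 := by
      rw [e00, e11] at hsame; linear_combination hsame
    exact (mul_eq_zero.1 this).resolve_right lam_ne_mu
  rw [hI, zero_mul, add_zero] at e00
  have hI' : (1 + 3 * b).imI = 0 := s1_eq_zero.1 hI
  have hre : (1 + 3 * b).re = 1 := by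
    rcases eq_or_eq_neg_of_abs_eq habs with h1 | h1
    · apply s1_injective
      rw [map_one, ← e00, h1]
    · exfalso
      have h2 : (1 + 3 * b).re = -1 := by
        apply s1_injective
        rw [map_neg, map_one, ← e00, h1]
      rw [QuaternionAlgebra.re_add, QuaternionAlgebra.re_one, re_three_mul] at h2
      have h3 := congrArg Zsqrtd.re h2
      have h4 : (1 + 3 * b.re : R).re = 1 + 3 * b.re.re := by simp
      rw [h4] at h3
      have h5 : (-1 : R).re = -1 := rfl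
      rw [h5] at h3
      omega
  have hx : 1 + 3 * b = 1 := QuaternionAlgebra.ext hre hI' hJ hK
  apply Subtype.ext
  apply Subtype.ext
  rw [e]
  refine Prod.ext (Subtype.ext ?_) (Subtype.ext ?_)
  · simp only [toG, hx, M1_one]; rfl
  · simp only [toG, hx, M2_one]; rfl

/-- `ff` as a homomorphism. -/
noncomputable def fH : SC →* Multiplicative ℝ where
  toFun h := Multiplicative.ofAdd (ff h)
  map_one' := by
    have h1 : ff 1 = 0 := by
      have := ff_mul 1 1
      rw [mul_one] at this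
      linarith
    rw [h1]; rfl
  map_mul' h k := by rw [ff_mul]; rfl

lemma fH_injective : Function.Injective fH := by
  rw [injective_iff_map_eq_one]
  intro h h1
  exact ff_injective' h h1

/-- Discreteness. -/
lemma ff_finite (B : ℝ) : {h : SC | |ff h| ≤ B}.Finite := by
  classical
  have hfin := finite_order (max (Real.exp B) 1)
  have himg := hfin.image (fun x : O => if h : nrd x = 1 then toG x h else 1)
  have hinj : Set.InjOn (fun h : SC => h.1.1) {h : SC | |ff h| ≤ B} := by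
    intro h _ k _ hk
    exact Subtype.ext (Subtype.ext hk)
  refine Set.Finite.of_finite_image (himg.subset ?_) hinj
  rintro _ ⟨h, hh, rfl⟩
  obtain ⟨b, hb, e, hJ, hK⟩ := SC_elt h
  refine ⟨1 + 3 * b, ⟨?_, ?_⟩, by simp only [hb, dite_true]; exact e.symm⟩
  · have hd := SC_diag h
    have hpos : 0 < |h.1.1.1 0 0| := abs_pos.2 (SC_ne h)
    have hh' : |ff h| ≤ B := hh
    have hle := abs_le.1 hh'
    have k1 : |h.1.1.1 0 0| ≤ Real.exp B := by
      rw [← Real.log_le_iff_le_exp hpos]; exact hle.2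
    have k2 : |h.1.1.1 1 1| ≤ Real.exp B := by
      have h1 : |h.1.1.1 0 0| * |h.1.1.1 1 1| = 1 := by rw [← abs_mul, SC_det, abs_one]
      have h2 : |h.1.1.1 1 1| = |h.1.1.1 0 0|⁻¹ := (eq_inv_of_mul_eq_one_right h1)
      rw [h2, ← Real.log_le_iff_le_exp (inv_pos.2 hpos), Real.log_inv]
      have : ff h = Real.log |h.1.1.1 0 0| := rfl
      linarith [hle.1]
    have hM : ∀ i j, M1 (1 + 3 * b) i j = h.1.1.1 i j := by
      intro i j; rw [e]; rfl
    intro i j
    rw [hM]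
    fin_cases i <;> fin_cases j
    · exact k1.trans (le_max_left _ _)
    · change |h.1.1.1 0 1| ≤ _
      rw [hd.1, abs_zero]; positivity
    · change |h.1.1.1 1 0| ≤ _
      rw [hd.2, abs_zero]; positivity
    · exact k2.trans (le_max_left _ _)
  · have hdet := det_M2 (1 + 3 * b)
    rw [hb, map_one, Matrix.det_fin_two] at hdet
    have q00 : M2 (1 + 3 * b) 0 0 = s2 (1 + 3 * b).re + s2 (1 + 3 * b).imI * cc := by
      change s2 (1 + 3 * b).re + s2 (1 + 3 * b).imI * cc +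
        √7 * (s2 (1 + 3 * b).imJ + s2 (1 + 3 * b).imK * cc) = _
      rw [hJ, hK, map_zero]; ring
    have q01 : M2 (1 + 3 * b) 0 1 = -s2 (1 + 3 * b).imI * ss := by
      change -s2 (1 + 3 * b).imI * ss + √7 * s2 (1 + 3 * b).imK * ss = _
      rw [hK, map_zero]; ring
    have q10 : M2 (1 + 3 * b) 1 0 = s2 (1 + 3 * b).imI * ss := by
      change s2 (1 + 3 * b).imI * ss + √7 * s2 (1 + 3 * b).imK * ss = _
      rw [hK, map_zero]; ring
    have q11 : M2 (1 + 3 * b) 1 1 = s2 (1 + 3 * b).re + s2 (1 + 3 * b).imI * cc := by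
      change s2 (1 + 3 * b).re + s2 (1 + 3 * b).imI * cc -
        √7 * (s2 (1 + 3 * b).imJ + s2 (1 + 3 * b).imK * cc) = _
      rw [hJ, hK, map_zero]; ring
    rw [q00, q01, q10, q11] at hdet
    have hu : |s2 (1 + 3 * b).re + s2 (1 + 3 * b).imI * cc| ≤ 1 := by
      rw [← sq_le_one_iff_abs_le_one]
      nlinarith [sq_nonneg (s2 (1 + 3 * b).imI * ss)]
    have hv : |s2 (1 + 3 * b).imI * ss| ≤ 1 := by
      rw [← sq_le_one_iff_abs_le_one]
      nlinarith [sq_nonneg (s2 (1 + 3 * b).re + s2 (1 + 3 * b).imI * cc)]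
    intro i j
    refine le_trans ?_ (le_max_right _ _)
    fin_cases i <;> fin_cases j
    · change |M2 (1 + 3 * b) 0 0| ≤ 1
      rw [q00]; exact hu
    · change |M2 (1 + 3 * b) 0 1| ≤ 1
      rw [q01, neg_mul, abs_neg]; exact hv
    · change |M2 (1 + 3 * b) 1 0| ≤ 1
      rw [q10]; exact hv
    · change |M2 (1 + 3 * b) 1 1| ≤ 1
      rw [q11]; exact hu

lemma gg_mem_SC : gg ∈ SC := ⟨1, le_rfl, by rw [pow_one]⟩

lemma ff_gg_pos : ∃ h : SC, 0 < ff h := by
  refine ⟨⟨gg, gg_mem_SC⟩, ?_⟩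
  have e : (alG ^ 5).1 0 0 = lam ^ 5 := by
    rw [Prod.pow_fst]
    exact congrFun (congrFun (alG_fst_pow 5) 0) 0
  have hff : ff ⟨gg, gg_mem_SC⟩ = Real.log |lam ^ 5| := by
    change Real.log |(alG ^ 5).1 0 0| = _
    rw [e]
  rw [hff, abs_of_pos (pow_pos lam_pos 5)]
  exact Real.log_pos (one_lt_pow₀ one_lt_lam (by norm_num))

/-- The stable centraliser is infinite cyclic. -/
theorem SC_cyclic : Nonempty (SC ≃* Multiplicative ℤ) := by
  -- the range of `ff` is an additive subgroup of `ℝ`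
  let H : AddSubgroup ℝ := (MonoidHom.toAdditiveLeft fH).range
  have hH : ∀ r : ℝ, r ∈ H ↔ ∃ h : SC, ff h = r := by
    intro r
    constructor
    · rintro ⟨h, hh⟩; exact ⟨h.toMul, hh⟩
    · rintro ⟨h, hh⟩; exact ⟨Additive.ofMul h, hh⟩
  -- it has no small positive element
  obtain ⟨a, ha, hdisj⟩ : ∃ a : ℝ, 0 < a ∧ Disjoint (H : Set ℝ) (Set.Ioo 0 a) := by
    set T : Set ℝ := {r : ℝ | r ∈ H ∧ 0 < r ∧ r ≤ 1} with hT
    have hTfin : T.Finite := by
      refine ((ff_finite 1).image ff).subset ?_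
      rintro r ⟨hr, h0, h1⟩
      obtain ⟨h, rfl⟩ := (hH r).1 hr
      exact ⟨h, by rw [Set.mem_ofPred_eq, abs_of_pos h0]; exact h1, rfl⟩
    by_cases hne : T.Nonempty
    · obtain ⟨m, hm, hmin⟩ := Set.exists_min_image T id hTfin hne
      refine ⟨m, hm.2.1, ?_⟩
      rw [Set.disjoint_left]
      rintro r hr ⟨h0, h1⟩
      have : m ≤ r := hmin r ⟨hr, h0, (h1.le.trans hm.2.2)⟩
      exact absurd h1 (not_lt.2 this)
    · refine ⟨1, one_pos, ?_⟩
      rw [Set.disjoint_left]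
      rintro r hr ⟨h0, h1⟩
      exact hne ⟨r, hr, h0, h1.le⟩
  obtain ⟨c, hc⟩ := AddSubgroup.cyclic_of_isolated_zero ha hdisj
  have hcH : c ∈ H := by rw [hc]; exact AddSubgroup.mem_closure_singleton_self c
  obtain ⟨h0, hh0⟩ := (hH c).1 hcH
  have hfpow : ∀ n : ℤ, ff (h0 ^ n) = n * c := by
    intro n
    have h1 : fH (h0 ^ n) = (fH h0) ^ n := map_zpow fH h0 n
    have h2 := congrArg Multiplicative.toAdd h1
    rw [toAdd_zpow] at h2
    have h3 : ff (h0 ^ n) = n • ff h0 := h2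
    rw [h3, hh0, zsmul_eq_mul]
  have hc0 : c ≠ 0 := by
    rintro rfl
    obtain ⟨h, hpos⟩ := ff_gg_pos
    have : ff h ∈ H := (hH _).2 ⟨h, rfl⟩
    rw [hc, AddSubgroup.closure_singleton_zero, AddSubgroup.mem_bot] at this
    exact hpos.ne' this
  refine ⟨(MulEquiv.ofBijective (zpowersHom SC h0) ⟨?_, ?_⟩).symm⟩
  · rw [injective_iff_map_eq_one]
    intro n hn
    have h1 : h0 ^ (Multiplicative.toAdd n) = 1 := hn
    have h2 := hfpow (Multiplicative.toAdd n)
    have h3 : ff (1 : SC) = 0 := by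
      have := ff_mul 1 1
      rw [mul_one] at this
      linarith
    rw [h1, h3] at h2
    have h4 : ((Multiplicative.toAdd n : ℤ) : ℝ) = 0 :=
      (mul_eq_zero.1 h2.symm).resolve_right hc0
    have h5 : (Multiplicative.toAdd n : ℤ) = 0 := by exact_mod_cast h4
    exact h5
  · intro h
    have h1 : ff h ∈ H := (hH _).2 ⟨h, rfl⟩
    rw [hc, AddSubgroup.mem_closure_singleton] at h1
    obtain ⟨n, hn⟩ := h1
    refine ⟨Multiplicative.ofAdd n, ?_⟩
    apply fH_injective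
    have h2 : ff (h0 ^ n) = ff h := by rw [hfpow, ← hn, zsmul_eq_mul]
    exact congrArg Multiplicative.ofAdd h2

end Pool.Agent.Work.MP_adbdc7_gt
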