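import Pool.Agent.Work.MP_adbdc7_gt.Minkowski

/-!
`Γ` acts cocompactly.
-/

open scoped MatrixGroups

namespace Pool.Agent.Work.MP_adbdc7_gt

open Spec

lemma exists_bounded (g : SL(2, ℝ) × SL(2, ℝ)) : ∃ x : O, x ≠ 0 ∧
    (∀ i j, |(M1 x * (g.1 : Matrix (Fin 2) (Fin 2) ℝ)) i j| ≤ rr) ∧
    (∀ i j, |(M2 x * (g.2 : Matrix (Fin 2) (Fin 2) ℝ)) i j| ≤ rr) := by
  obtain ⟨n, hn, hb⟩ := minkowski ![g.1, g.2]
  set x : O := ⟨⟨n (0, (0, 0)), n (1, (0, 0))⟩, ⟨n (0, (0, 1)), n (1, (0, 1))⟩,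
    ⟨n (0, (1, 0)), n (1, (1, 0))⟩, ⟨n (0, (1, 1)), n (1, (1, 1))⟩⟩ with hx
  have e1 : NN (fun q => (n q : ℝ)) 0 = M1 x := by
    simp only [NN, M1, hx, c1, s1_apply, Matrix.cons_val_zero]
  have e2 : NN (fun q => (n q : ℝ)) 1 = M2 x := by
    simp only [NN, M2, hx, c2, s2_apply, Matrix.cons_val_one, Matrix.cons_val_fin_one]
  refine ⟨x, ?_, fun i j => ?_, fun i j => ?_⟩
  · intro h0
    apply hn
    have h1 := congrArg QuaternionAlgebra.re h0
    have h2 := congrArg QuaternionAlgebra.imI h0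
    have h3 := congrArg QuaternionAlgebra.imJ h0
    have h4 := congrArg QuaternionAlgebra.imK h0
    have r1 := congrArg Zsqrtd.re h1
    have r2 := congrArg Zsqrtd.re h2
    have r3 := congrArg Zsqrtd.re h3
    have r4 := congrArg Zsqrtd.re h4
    have i1 := congrArg Zsqrtd.im h1
    have i2 := congrArg Zsqrtd.im h2
    have i3 := congrArg Zsqrtd.im h3
    have i4 := congrArg Zsqrtd.im h4
    funext ⟨e, k, i⟩
    fin_cases k <;> fin_cases i <;> fin_cases e <;> assumption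
  · have := hb (j, (0, i))
    rw [FF, LinearMap.comp_apply, TT_apply, e1] at this
    exact this.le
  · have := hb (j, (1, i))
    rw [FF, LinearMap.comp_apply, TT_apply, e2] at this
    exact this.le

lemma det_bound {A : Matrix (Fin 2) (Fin 2) ℝ} {r : ℝ} (h : ∀ i j, |A i j| ≤ r) :
    |A.det| ≤ 2 * r ^ 2 := by
  rw [Matrix.det_fin_two]
  have hr : 0 ≤ r := (abs_nonneg _).trans (h 0 0)
  calc |A 0 0 * A 1 1 - A 0 1 * A 1 0| ≤ |A 0 0 * A 1 1| + |A 0 1 * A 1 0| := abs_sub _ _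
    _ = |A 0 0| * |A 1 1| + |A 0 1| * |A 1 0| := by rw [abs_mul, abs_mul]
    _ ≤ r * r + r * r := by
      gcongr
      · exact h 0 0
      · exact h 1 1
      · exact h 0 1
      · exact h 1 0
    _ = 2 * r ^ 2 := by ring

/-- The finite set of possible norms. -/
def SS : Set R := {a : R | |s1 a| ≤ 2 * rr ^ 2 ∧ |s2 a| ≤ 2 * rr ^ 2}

lemma SS_finite : SS.Finite := finite_bounded _

/-- A common multiple of the norms. -/
noncomputable def DP : ℕ := ∏ a ∈ SS_finite.toFinset.erase 0, a.norm.natAbs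

/-- The modulus. -/
noncomputable def DD : ℕ := 3 * DP

lemma DD_pos : 0 < DD := by
  refine Nat.mul_pos (by norm_num) (Finset.prod_pos fun a ha => ?_)
  rw [Finset.mem_erase] at ha
  exact Int.natAbs_pos.2 fun h => ha.1 (norm_eq_zero'.1 h)

instance : NeZero DD := ⟨DD_pos.ne'⟩

lemma dvd_DD {a : R} (ha : a ∈ SS) (h0 : a ≠ 0) : ∃ w : R, (DD : R) = 3 * (a * w) := by
  have h1 : a.norm.natAbs ∣ DP :=
    Finset.dvd_prod_of_mem (fun a : R => a.norm.natAbs)
      (Finset.mem_erase.2 ⟨h0, (Set.Finite.mem_toFinset _).2 ha⟩)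
  have h2 : (a.norm : ℤ) ∣ (DP : ℤ) := Int.natAbs_dvd.1 (Int.natCast_dvd_natCast.2 h1)
  have h3 : ((a.norm : ℤ) : R) ∣ ((DP : ℤ) : R) := map_dvd (Int.castRingHom R) h2
  have h4 : a ∣ ((a.norm : ℤ) : R) := ⟨star a, Zsqrtd.norm_eq_mul_conj a⟩
  obtain ⟨w, hw⟩ := h4.trans h3
  refine ⟨w, ?_⟩
  rw [← hw, DD]
  push_cast
  rfl

/-- The residue of an element of the order. -/
noncomputable def resO (x : O) : (Fin 8 → ZMod DD) :=
  ![(x.re.re : ZMod DD), x.re.im, x.imI.re, x.imI.im, x.imJ.re, x.imJ.im, x.imK.re, x.imK.im]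

lemma exists_coord {a b : R} (h : (a.re : ZMod DD) = b.re) (h' : (a.im : ZMod DD) = b.im) :
    ∃ c : R, a = b + (DD : R) * c := by
  rw [ZMod.intCast_eq_intCast_iff_dvd_sub] at h h'
  obtain ⟨c, hc⟩ := h
  obtain ⟨d, hd⟩ := h'
  refine ⟨⟨-c, -d⟩, ?_⟩
  ext
  · simp; linarith
  · simp; linarith

lemma exists_resO {x y : O} (h : resO x = resO y) : ∃ z : O, x = y + (DD : R) • z := by
  obtain ⟨c0, h0⟩ := exists_coord (a := x.re) (b := y.re) (congrFun h 0) (congrFun h 1)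
  obtain ⟨c1, h1⟩ := exists_coord (a := x.imI) (b := y.imI) (congrFun h 2) (congrFun h 3)
  obtain ⟨c2, h2⟩ := exists_coord (a := x.imJ) (b := y.imJ) (congrFun h 4) (congrFun h 5)
  obtain ⟨c3, h3⟩ := exists_coord (a := x.imK) (b := y.imK) (congrFun h 6) (congrFun h 7)
  exact ⟨⟨c0, c1, c2, c3⟩, QuaternionAlgebra.ext h0 h1 h2 h3⟩

/-- Two elements of the same norm `ν ∈ S`, congruent modulo `DD`, differ by an element of `Γ`. -/
lemma exists_gamma {x y : O} (hy0 : y ≠ 0) (hS : nrd y ∈ SS) (hn : nrd x = nrd y)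
    (hr : resO x = resO y) : ∃ b : O, nrd (1 + 3 * b) = 1 ∧ x = y * (1 + 3 * b) := by
  obtain ⟨z, hz⟩ := exists_resO hr
  have hν : nrd y ≠ 0 := fun h => hy0 (nrd_eq_zero.1 h)
  obtain ⟨w, hw⟩ := dvd_DD hS hν
  have hxy : x = y * (1 + 3 * (w • (star y * z))) := by
    have h3 : ∀ u : O, (3 : O) * u = (3 : R) • u := by
      intro u
      exact QuaternionAlgebra.ext (re_three_mul u) (imI_three_mul u) (imJ_three_mul u)
        (imK_three_mul u)
    rw [h3, mul_add, mul_one, mul_smul_comm, mul_smul_comm, ← mul_assoc, mul_star_eq,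
      smul_mul_assoc, one_mul, smul_smul, smul_smul, hz, hw]
    congr 2
    ring
  refine ⟨w • (star y * z), ?_, hxy⟩
  have := congrArg nrd hxy
  rw [nrd_mul, hn] at this
  exact mul_left_cancel₀ hν (by rw [← this, mul_one])

lemma mul_bound {A B : Matrix (Fin 2) (Fin 2) ℝ} {r : ℝ} (h : ∀ i j, |B i j| ≤ r) (i j : Fin 2) :
    |(A * B) i j| ≤ (∑ i, ∑ j, |A i j|) * r := by
  rw [Matrix.mul_apply]
  calc |∑ k, A i k * B k j| ≤ ∑ k, |A i k * B k j| := Finset.abs_sum_le_sum_abs _ _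
    _ ≤ ∑ k, |A i k| * r := by
        refine Finset.sum_le_sum fun k _ => ?_
        rw [abs_mul]
        exact mul_le_mul_of_nonneg_left (h k j) (abs_nonneg _)
    _ = (∑ k, |A i k|) * r := by rw [Finset.sum_mul]
    _ ≤ (∑ i, ∑ j, |A i j|) * r := by
        refine mul_le_mul_of_nonneg_right ?_ ((abs_nonneg _).trans (h 0 0))
        exact Finset.single_le_sum (f := fun i => ∑ j, |A i j|)
          (fun _ _ => Finset.sum_nonneg fun _ _ => abs_nonneg _) (Finset.mem_univ i)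

lemma exists_gamma_bound : ∃ C : ℝ, ∀ g : SL(2, ℝ) × SL(2, ℝ), ∃ γ ∈ Gam,
    (∀ i j, |(γ.1 * g.1) i j| ≤ C) ∧ (∀ i j, |(γ.2 * g.2) i j| ≤ C) := by
  classical
  -- the admissible elements
  set P : Set O := {x | x ≠ 0 ∧ nrd x ∈ SS} with hP
  set cls : O → R × (Fin 8 → ZMod DD) := fun x => (nrd x, resO x) with hcls
  have hfin : (cls '' P).Finite := by
    refine (SS_finite.prod (Set.finite_univ (α := Fin 8 → ZMod DD))).subset ?_
    rintro _ ⟨x, hx, rfl⟩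
    exact ⟨hx.2, Set.mem_univ _⟩
  have hrep : ∀ c : R × (Fin 8 → ZMod DD), ∃ y : O, c ∈ cls '' P → y ∈ P ∧ cls y = c := by
    intro c
    by_cases hc : c ∈ cls '' P
    · obtain ⟨y, hy, hyc⟩ := hc
      exact ⟨y, fun _ => ⟨hy, hyc⟩⟩
    · exact ⟨0, fun h => absurd h hc⟩
  choose rep hrep using hrep
  -- the bounds
  obtain ⟨C1, hC1⟩ := (hfin.image fun c => (∑ i, ∑ j, |M1 (star (rep c)) i j|) * rr /
    |s1 (nrd (rep c))|).bddAbove
  obtain ⟨C2, hC2⟩ := (hfin.image fun c => (∑ i, ∑ j, |M2 (star (rep c)) i j|) * rr /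
    |s2 (nrd (rep c))|).bddAbove
  refine ⟨max C1 C2, fun g => ?_⟩
  obtain ⟨x, hx0, hx1, hx2⟩ := exists_bounded g
  have hxP : x ∈ P := by
    refine ⟨hx0, ?_, ?_⟩
    · have := det_bound hx1
      rwa [Matrix.det_mul, g.1.2, mul_one, det_M1] at this
    · have := det_bound hx2
      rwa [Matrix.det_mul, g.2.2, mul_one, det_M2] at this
  have hc : cls x ∈ cls '' P := ⟨x, hxP, rfl⟩
  obtain ⟨hyP, hyc⟩ := hrep (cls x) hc
  set y := rep (cls x) with hy
  have hn : nrd x = nrd y := (congrArg Prod.fst hyc).symm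
  have hr : resO x = resO y := (congrArg Prod.snd hyc).symm
  obtain ⟨b, hb, hxy⟩ := exists_gamma hyP.1 hyP.2 hn hr
  have hν : nrd y ≠ 0 := fun h => hyP.1 (nrd_eq_zero.1 h)
  refine ⟨toG (1 + 3 * b) hb, ⟨b, hb, rfl⟩, fun i j => ?_, fun i j => ?_⟩
  · refine le_trans ?_ (le_max_left _ _)
    refine le_trans ?_ (hC1 ⟨cls x, hc, rfl⟩)
    have hs : 0 < |s1 (nrd y)| := abs_pos.2 fun h => hν (s1_eq_zero.1 h)
    rw [le_div_iff₀ hs]
    have e1 : M1 (star y) * (M1 x * (g.1 : Matrix (Fin 2) (Fin 2) ℝ)) =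
        s1 (nrd y) • (M1 (1 + 3 * b) * (g.1 : Matrix (Fin 2) (Fin 2) ℝ)) := by
      rw [hxy, M1_mul, ← Matrix.mul_assoc, ← Matrix.mul_assoc, M1_star_mul, Matrix.smul_mul,
        Matrix.one_mul, Matrix.smul_mul]
    have e2 := mul_bound (A := M1 (star y)) hx1 i j
    rw [e1, Matrix.smul_apply, smul_eq_mul, abs_mul, mul_comm] at e2
    exact e2
  · refine le_trans ?_ (le_max_right _ _)
    refine le_trans ?_ (hC2 ⟨cls x, hc, rfl⟩)
    have hs : 0 < |s2 (nrd y)| := abs_pos.2 fun h => hν (s2_eq_zero.1 h)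
    rw [le_div_iff₀ hs]
    have e1 : M2 (star y) * (M2 x * (g.2 : Matrix (Fin 2) (Fin 2) ℝ)) =
        s2 (nrd y) • (M2 (1 + 3 * b) * (g.2 : Matrix (Fin 2) (Fin 2) ℝ)) := by
      rw [hxy, M2_mul, ← Matrix.mul_assoc, ← Matrix.mul_assoc, M2_star_mul, Matrix.smul_mul,
        Matrix.one_mul, Matrix.smul_mul]
    have e2 := mul_bound (A := M2 (star y)) hx2 i j
    rw [e1, Matrix.smul_apply, smul_eq_mul, abs_mul, mul_comm] at e2
    exact e2

lemma isCompact_bounded (C : ℝ) : IsCompact {h : SL(2, ℝ) | ∀ i j, |h i j| ≤ C} := by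
  have h1 : IsCompact (Set.univ.pi fun _ : Fin 2 => Set.univ.pi fun _ : Fin 2 =>
      Set.Icc (-C) C) := isCompact_univ_pi fun _ => isCompact_univ_pi fun _ => isCompact_Icc
  have h2 := (Matrix.SpecialLinearGroup.isClosedEmbedding_val (n := Fin 2)
    (R := ℝ)).isCompact_preimage h1
  refine h2.of_isClosed_subset ?_ ?_
  · simp only [Set.ofPred_forall]
    refine isClosed_iInter fun i => isClosed_iInter fun j => ?_
    refine isClosed_le ?_ continuous_const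
    exact ((continuous_subtype_val).matrix_elem i j).abs
  · intro h hh i _ j _
    exact abs_le.1 (hh i j)

lemma Gam_cocompact : ∃ K : Set HH, IsCompact K ∧ ∀ p : HH, ∃ g ∈ Gam, act g p ∈ K := by
  obtain ⟨C, hC⟩ := exists_gamma_bound
  have hQ := (isCompact_bounded C).image
    (UpperHalfPlane.isProperMap_smul_I.continuous)
  refine ⟨WithLp.toLp 2 '' (_ ×ˢ _), (hQ.prod hQ).image (WithLp.prod_continuous_toLp 2 _ _), ?_⟩
  intro p
  obtain ⟨γ, hγ, h1, h2⟩ := hC (UpperHalfPlane.toSL2R p.fst, UpperHalfPlane.toSL2R p.snd)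
  refine ⟨γ, hγ, (γ.1 • p.fst, γ.2 • p.snd), ⟨⟨_, h1, ?_⟩, ⟨_, h2, ?_⟩⟩, rfl⟩
  · simp only [mul_smul, UpperHalfPlane.toSL2R_smul_I]
  · simp only [mul_smul, UpperHalfPlane.toSL2R_smul_I]

lemma Gam_lattice : IsUniformLattice Gam where
  isometric g _ := act_isometry g
  free := Gam_free
  proper := Gam_proper
  cocompact := Gam_cocompact

end Pool.Agent.Work.MP_adbdc7_gt
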