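import Pool.Agent.Work.MP_adbdc7_gt.Gamma

/-!
The action on `ℍ × ℍ` is isometric; `Γ` acts properly discontinuously.
-/

open scoped MatrixGroups

namespace Pool.Agent.Work.MP_adbdc7_gt

open Spec

lemma HH_dist_eq (p q : HH) : dist p q = √(dist p.fst q.fst ^ 2 + dist p.snd q.snd ^ 2) := by
  rw [WithLp.prod_dist_eq_add (by norm_num)]
  simp only [ENNReal.toReal_ofNat, Real.rpow_ofNat, one_div]
  rw [Real.sqrt_eq_rpow, one_div]

lemma act_isometry (g : SL(2, ℝ) × SL(2, ℝ)) : Isometry (act g) := by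
  refine Isometry.of_dist_eq fun p q => ?_
  rw [HH_dist_eq, HH_dist_eq]
  change √(dist (g.1 • p.fst) (g.1 • q.fst) ^ 2 + dist (g.2 • p.snd) (g.2 • q.snd) ^ 2) = _
  rw [dist_smul, dist_smul]

/-- Elements moving a compact set to meet itself have bounded entries. -/
lemma exists_bound {K : Set UpperHalfPlane} (hK : IsCompact K) :
    ∃ B : ℝ, ∀ g : SL(2, ℝ), ∀ x ∈ K, g • x ∈ K → ∀ i j, |g i j| ≤ B := by
  have hproper : IsProperMap (fun gx : SL(2, ℝ) × UpperHalfPlane => (gx.1 • gx.2, gx.2)) :=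
    ProperSMul.isProperMap_smul_pair
  have hS : IsCompact (Prod.fst '' ((fun gx : SL(2, ℝ) × UpperHalfPlane => (gx.1 • gx.2, gx.2)) ⁻¹'
      (K ×ˢ K))) := (hproper.isCompact_preimage (hK.prod hK)).image continuous_fst
  have hb : ∀ i j : Fin 2, ∃ B : ℝ, ∀ g ∈ (Prod.fst '' ((fun gx : SL(2, ℝ) × UpperHalfPlane =>
      (gx.1 • gx.2, gx.2)) ⁻¹' (K ×ˢ K))), |(g : SL(2, ℝ)) i j| ≤ B := by
    intro i j
    have hc : Continuous fun g : SL(2, ℝ) => |g i j| := by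
      have : Continuous fun g : SL(2, ℝ) => (g : Matrix (Fin 2) (Fin 2) ℝ) i j :=
        (continuous_subtype_val).matrix_elem i j
      exact this.abs
    obtain ⟨B, hB⟩ := (hS.image hc).bddAbove
    exact ⟨B, fun g hg => hB ⟨g, hg, rfl⟩⟩
  choose B hB using hb
  refine ⟨∑ i, ∑ j, |B i j|, fun g x hx hgx i j => ?_⟩
  have hmem : g ∈ (Prod.fst '' ((fun gx : SL(2, ℝ) × UpperHalfPlane =>
      (gx.1 • gx.2, gx.2)) ⁻¹' (K ×ˢ K))) := ⟨(g, x), ⟨hgx, hx⟩, rfl⟩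
  calc |g i j| ≤ B i j := hB i j g hmem
    _ ≤ |B i j| := le_abs_self _
    _ ≤ ∑ j, |B i j| := Finset.single_le_sum (f := fun j => |B i j|) (fun _ _ => abs_nonneg _)
        (Finset.mem_univ j)
    _ ≤ ∑ i, ∑ j, |B i j| := Finset.single_le_sum (f := fun i => ∑ j, |B i j|)
        (fun _ _ => Finset.sum_nonneg fun _ _ => abs_nonneg _) (Finset.mem_univ i)

lemma N1_bound {B a0 a1 a2 a3 : ℝ} (h : ∀ i j, |N1 a0 a1 a2 a3 i j| ≤ B) :
    |a0| ≤ B + 2 * B * (lam - mu)⁻¹ * lam ∧ |a1| ≤ 2 * B * (lam - mu)⁻¹ ∧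
    |a2| ≤ B + 2 * B * (lam - mu)⁻¹ * lam ∧ |a3| ≤ 2 * B * (lam - mu)⁻¹ := by
  have h00 := h 0 0
  have h01 := h 0 1
  have h10 := h 1 0
  have h11 := h 1 1
  simp only [N1, Matrix.of_apply, Matrix.cons_val', Matrix.cons_val_zero,
    Matrix.cons_val_fin_one, Matrix.cons_val_one] at h00 h01 h10 h11
  have hd : 0 < (lam - mu)⁻¹ := inv_pos.2 (sub_pos.2 mu_lt_lam)
  have hB : 0 ≤ B := (abs_nonneg _).trans h00
  have hl := lam_pos
  have hm := mu_pos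
  have hml := mu_lt_lam
  have e1 : |a1| ≤ 2 * B * (lam - mu)⁻¹ := by
    have : a1 = ((a0 + a1 * lam) - (a0 + a1 * mu)) * (lam - mu)⁻¹ := by
      field_simp [lam_ne_mu]; ring
    rw [this, abs_mul, abs_of_pos hd]
    gcongr
    calc |a0 + a1 * lam - (a0 + a1 * mu)| ≤ |a0 + a1 * lam| + |a0 + a1 * mu| := abs_sub _ _
      _ ≤ 2 * B := by linarith
  have e3 : |a3| ≤ 2 * B * (lam - mu)⁻¹ := by
    have : a3 = ((7 * (a2 + a3 * lam)) / 7 - (a2 + a3 * mu)) * (lam - mu)⁻¹ := by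
      field_simp [lam_ne_mu]; ring
    rw [this, abs_mul, abs_of_pos hd]
    gcongr
    calc |7 * (a2 + a3 * lam) / 7 - (a2 + a3 * mu)| ≤ |7 * (a2 + a3 * lam) / 7| +
        |a2 + a3 * mu| := abs_sub _ _
      _ = |7 * (a2 + a3 * lam)| / 7 + |a2 + a3 * mu| := by rw [abs_div]; norm_num
      _ ≤ 2 * B := by linarith
  refine ⟨?_, e1, ?_, e3⟩
  · have : a0 = (a0 + a1 * lam) - a1 * lam := by ring
    rw [this]
    calc |a0 + a1 * lam - a1 * lam| ≤ |a0 + a1 * lam| + |a1 * lam| := abs_sub _ _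
      _ = |a0 + a1 * lam| + |a1| * lam := by rw [abs_mul, abs_of_pos hl]
      _ ≤ _ := by gcongr
  · have : a2 = (a2 + a3 * mu) - a3 * mu := by ring
    rw [this]
    calc |a2 + a3 * mu - a3 * mu| ≤ |a2 + a3 * mu| + |a3 * mu| := abs_sub _ _
      _ = |a2 + a3 * mu| + |a3| * mu := by rw [abs_mul, abs_of_pos hm]
      _ ≤ _ := by gcongr

lemma N2_bound {B a0 a1 a2 a3 : ℝ} (h : ∀ i j, |N2 a0 a1 a2 a3 i j| ≤ B) :
    |a0| ≤ B + B * ss⁻¹ ∧ |a1| ≤ B * ss⁻¹ ∧ |a2| ≤ B + B * ss⁻¹ ∧ |a3| ≤ B * ss⁻¹ := by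
  have h00 := h 0 0
  have h01 := h 0 1
  have h10 := h 1 0
  have h11 := h 1 1
  simp only [N2, Matrix.of_apply, Matrix.cons_val', Matrix.cons_val_zero,
    Matrix.cons_val_fin_one, Matrix.cons_val_one] at h00 h01 h10 h11
  have hs : 0 < ss⁻¹ := inv_pos.2 ss_pos
  have hs0 := ss_pos
  have hB : 0 ≤ B := (abs_nonneg _).trans h00
  have hq : 1 ≤ √7 := Real.one_le_sqrt.2 (by norm_num)
  have hc : |cc| ≤ 1 := by
    rw [← sq_le_one_iff_abs_le_one]; exact cc_sq_lt.le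
  have e1 : |a1| ≤ B * ss⁻¹ := by
    have : a1 = (((a1 * ss + √7 * a3 * ss) - (-a1 * ss + √7 * a3 * ss)) / 2) * ss⁻¹ := by
      field_simp; ring
    rw [this, abs_mul, abs_of_pos hs, abs_div, abs_two]
    gcongr
    have := abs_sub (a1 * ss + √7 * a3 * ss) (-a1 * ss + √7 * a3 * ss)
    linarith
  have e3' : |√7 * a3| ≤ B * ss⁻¹ := by
    have : √7 * a3 = (((a1 * ss + √7 * a3 * ss) + (-a1 * ss + √7 * a3 * ss)) / 2) * ss⁻¹ := by
      field_simp; ring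
    rw [this, abs_mul, abs_of_pos hs, abs_div, abs_two]
    gcongr
    have := abs_add_le (a1 * ss + √7 * a3 * ss) (-a1 * ss + √7 * a3 * ss)
    linarith
  have e3 : |a3| ≤ B * ss⁻¹ := by
    refine le_trans ?_ e3'
    rw [abs_mul, abs_of_pos sqrt7_pos]
    nlinarith [abs_nonneg a3]
  refine ⟨?_, e1, ?_, e3⟩
  · have : a0 = ((a0 + a1 * cc + √7 * (a2 + a3 * cc)) + (a0 + a1 * cc - √7 * (a2 + a3 * cc))) / 2 -
        a1 * cc := by ring
    rw [this]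
    have k1 := abs_sub (((a0 + a1 * cc + √7 * (a2 + a3 * cc)) +
      (a0 + a1 * cc - √7 * (a2 + a3 * cc))) / 2) (a1 * cc)
    have k2 := abs_add_le (a0 + a1 * cc + √7 * (a2 + a3 * cc)) (a0 + a1 * cc - √7 * (a2 + a3 * cc))
    rw [abs_div, abs_two, abs_mul] at k1
    have k3 : |a1| * |cc| ≤ B * ss⁻¹ * 1 := by gcongr
    linarith
  · have hb : |√7 * (a2 + a3 * cc)| ≤ B := by
      have : √7 * (a2 + a3 * cc) = ((a0 + a1 * cc + √7 * (a2 + a3 * cc)) -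
        (a0 + a1 * cc - √7 * (a2 + a3 * cc))) / 2 := by ring
      rw [this, abs_div, abs_two]
      have k2 := abs_sub (a0 + a1 * cc + √7 * (a2 + a3 * cc)) (a0 + a1 * cc - √7 * (a2 + a3 * cc))
      linarith
    have hb' : |a2 + a3 * cc| ≤ B := by
      refine le_trans ?_ hb
      rw [abs_mul, abs_of_pos sqrt7_pos]
      nlinarith [abs_nonneg (a2 + a3 * cc)]
    have : a2 = (a2 + a3 * cc) - a3 * cc := by ring
    rw [this]
    have k1 := abs_sub (a2 + a3 * cc) (a3 * cc)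
    rw [abs_mul] at k1
    have k3 : |a3| * |cc| ≤ B * ss⁻¹ * 1 := by gcongr
    linarith

/-- Elements of the order with bounded images in both splittings form a finite set. -/
lemma finite_order (B : ℝ) : {x : O | (∀ i j, |M1 x i j| ≤ B) ∧ ∀ i j, |M2 x i j| ≤ B}.Finite := by
  obtain ⟨C, hC⟩ : ∃ C : ℝ, ∀ x : O, (∀ i j, |M1 x i j| ≤ B) → (∀ i j, |M2 x i j| ≤ B) →
      (|s1 x.re| ≤ C ∧ |s2 x.re| ≤ C) ∧ (|s1 x.imI| ≤ C ∧ |s2 x.imI| ≤ C) ∧
      (|s1 x.imJ| ≤ C ∧ |s2 x.imJ| ≤ C) ∧ (|s1 x.imK| ≤ C ∧ |s2 x.imK| ≤ C) := by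
    refine ⟨max (max (B + 2 * B * (lam - mu)⁻¹ * lam) (2 * B * (lam - mu)⁻¹))
      (max (B + B * ss⁻¹) (B * ss⁻¹)), fun x h1 h2 => ?_⟩
    obtain ⟨u0, u1, u2, u3⟩ := N1_bound h1
    obtain ⟨v0, v1, v2, v3⟩ := N2_bound h2
    simp only [le_max_iff]
    tauto
  have hfin := finite_bounded C
  have hprod := ((hfin.prod hfin).prod (hfin.prod hfin)).image
    (fun q : (R × R) × (R × R) => (⟨q.1.1, q.1.2, q.2.1, q.2.2⟩ : O))
  refine hprod.subset ?_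
  rintro x ⟨h1, h2⟩
  obtain ⟨h0, hI, hJ, hK⟩ := hC x h1 h2
  exact ⟨((x.re, x.imI), (x.imJ, x.imK)), ⟨⟨h0, hI⟩, hJ, hK⟩, rfl⟩

lemma Gam_proper : ∀ K : Set HH, IsCompact K →
    {g | g ∈ Gam ∧ (act g '' K ∩ K).Nonempty}.Finite := by
  intro K hK
  have hK1 : IsCompact (WithLp.fst '' K) :=
    hK.image (WithLp.continuous_fst 2 _ _)
  have hK2 : IsCompact (WithLp.snd '' K) :=
    hK.image (WithLp.continuous_snd 2 _ _)
  obtain ⟨B1, hB1⟩ := exists_bound hK1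
  obtain ⟨B2, hB2⟩ := exists_bound hK2
  have hfin := finite_order (max B1 B2)
  classical
  have himg := hfin.image (fun x : O => if h : nrd x = 1 then toG x h else 1)
  refine himg.subset ?_
  rintro _ ⟨⟨b, hb, rfl⟩, _, ⟨p, hp, rfl⟩, hp'⟩
  refine ⟨1 + 3 * b, ⟨fun i j => ?_, fun i j => ?_⟩, by simp only [hb, dite_true]⟩
  · exact (hB1 _ p.fst ⟨p, hp, rfl⟩ ⟨_, hp', rfl⟩ i j).trans (le_max_left _ _)
  · exact (hB2 _ p.snd ⟨p, hp, rfl⟩ ⟨_, hp', rfl⟩ i j).trans (le_max_right _ _)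

end Pool.Agent.Work.MP_adbdc7_gt
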