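import Pool.Agent.Work.MP_adbdc7_gt.Gamma
import Pool.Agent.Work.MP_adbdc7_gt.Proper

/-!
The mixed element `g = α ^ 5`: it translates a geodesic line which bounds a flat half-plane.
-/

open scoped MatrixGroups

namespace Pool.Agent.Work.MP_adbdc7_gt

open Spec

/-- The element `i` of the order. -/
def al : O := ⟨0, 1, 0, 0⟩

lemma nrd_al : nrd al = 1 := by
  simp [nrd, al]

/-- The element `β` with `α ^ 5 = 1 + 3 β`. -/
def be : O := ⟨⟨-2, -1⟩, ⟨3, 2⟩, 0, 0⟩

lemma al_pow_five : al ^ 5 = 1 + 3 * be := by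
  have h2 : al * al = ⟨-1, tt, 0, 0⟩ := by
    apply QuaternionAlgebra.ext <;> simp [al]
  have h4 : (⟨-1, tt, 0, 0⟩ : O) * ⟨-1, tt, 0, 0⟩ = ⟨⟨-2, -2⟩, ⟨5, 3⟩, 0, 0⟩ := by
    apply QuaternionAlgebra.ext <;>
      simp only [QuaternionAlgebra.re_mul, QuaternionAlgebra.imI_mul, QuaternionAlgebra.imJ_mul,
        QuaternionAlgebra.imK_mul] <;> decide
  have h5 : (⟨⟨-2, -2⟩, ⟨5, 3⟩, 0, 0⟩ : O) * al = ⟨⟨-5, -3⟩, ⟨9, 6⟩, 0, 0⟩ := by
    apply QuaternionAlgebra.ext <;>
      simp only [al, QuaternionAlgebra.re_mul, QuaternionAlgebra.imI_mul,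
        QuaternionAlgebra.imJ_mul, QuaternionAlgebra.imK_mul] <;> decide
  have h6 : 1 + 3 * be = ⟨⟨-5, -3⟩, ⟨9, 6⟩, 0, 0⟩ := by
    apply QuaternionAlgebra.ext <;>
      simp only [QuaternionAlgebra.re_add, QuaternionAlgebra.imI_add, QuaternionAlgebra.imJ_add,
        QuaternionAlgebra.imK_add, QuaternionAlgebra.re_one, QuaternionAlgebra.imI_one,
        QuaternionAlgebra.imJ_one, QuaternionAlgebra.imK_one, re_three_mul, imI_three_mul,
        imJ_three_mul, imK_three_mul, be] <;> decide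
  calc al ^ 5 = ((al * al) * (al * al)) * al := by noncomm_ring
    _ = 1 + 3 * be := by rw [h2, h4, h5, h6]

/-- The image of `α` in `SL₂(ℝ) × SL₂(ℝ)`. -/
noncomputable def alG : SL(2, ℝ) × SL(2, ℝ) := toG al nrd_al

lemma nrd_be : nrd (1 + 3 * be) = 1 := by
  have h : ∀ n : ℕ, nrd (al ^ n) = 1 := by
    intro n
    induction n with
    | zero => rw [pow_zero, nrd_one]
    | succ n ih => rw [pow_succ, nrd_mul, ih, nrd_al, one_mul]
  rw [← al_pow_five, h]

lemma alG_pow_five : alG ^ 5 = toG (1 + 3 * be) nrd_be := by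
  have h1 : ∀ n : ℕ, M1 (al ^ n) = (M1 al) ^ n := by
    intro n
    induction n with
    | zero => rw [pow_zero, pow_zero, M1_one]
    | succ n ih => rw [pow_succ, pow_succ, M1_mul, ih]
  have h2 : ∀ n : ℕ, M2 (al ^ n) = (M2 al) ^ n := by
    intro n
    induction n with
    | zero => rw [pow_zero, pow_zero, M2_one]
    | succ n ih => rw [pow_succ, pow_succ, M2_mul, ih]
  refine Prod.ext (Subtype.ext ?_) (Subtype.ext ?_)
  · have e : ((alG ^ 5).1 : Matrix (Fin 2) (Fin 2) ℝ) = (M1 al) ^ 5 := by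
      rw [Prod.pow_fst, Matrix.SpecialLinearGroup.coe_pow]; rfl
    rw [e, ← h1, al_pow_five]
    rfl
  · have e : ((alG ^ 5).2 : Matrix (Fin 2) (Fin 2) ℝ) = (M2 al) ^ 5 := by
      rw [Prod.pow_snd, Matrix.SpecialLinearGroup.coe_pow]; rfl
    rw [e, ← h2, al_pow_five]
    rfl

lemma alG_pow_mem : alG ^ 5 ∈ Gam := ⟨be, nrd_be, alG_pow_five⟩

lemma alG_fst : ((alG.1 : SL(2, ℝ)) : Matrix (Fin 2) (Fin 2) ℝ) = !![lam, 0; 0, mu] := by
  change M1 al = _
  simp [M1, N1, al]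

lemma alG_snd : ((alG.2 : SL(2, ℝ)) : Matrix (Fin 2) (Fin 2) ℝ) = !![cc, -ss; ss, cc] := by
  change M2 al = _
  simp [M2, N2, al]

/-- The point `i e^x`. -/
noncomputable def pt (x : ℝ) : UpperHalfPlane := ⟨⟨0, Real.exp x⟩, Real.exp_pos x⟩

lemma dist_pt (x y : ℝ) : dist (pt x) (pt y) = dist x y := by
  rw [UpperHalfPlane.dist_of_re_eq (by rfl)]
  change dist (Real.log (Real.exp x)) (Real.log (Real.exp y)) = _
  rw [Real.log_exp, Real.log_exp]

lemma alG_fst_smul (x : ℝ) : alG.1 • pt x = pt (x + 2 * Real.log lam) := by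
  apply UpperHalfPlane.ext
  rw [UpperHalfPlane.coe_specialLinearGroup_apply]
  have h00 : alG.1 0 0 = lam := congrFun (congrFun alG_fst 0) 0
  have h01 : alG.1 0 1 = 0 := congrFun (congrFun alG_fst 0) 1
  have h10 : alG.1 1 0 = 0 := congrFun (congrFun alG_fst 1) 0
  have h11 : alG.1 1 1 = mu := congrFun (congrFun alG_fst 1) 1
  simp only [Algebra.algebraMap_self, RingHom.id_apply, h00, h01, h10, h11]
  have e1 : ((pt x : UpperHalfPlane) : ℂ) = Complex.I * (Real.exp x : ℝ) := by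
    apply Complex.ext <;> simp [pt, -Complex.ofReal_exp]
  have e2 : ((pt (x + 2 * Real.log lam) : UpperHalfPlane) : ℂ) =
      Complex.I * ((Real.exp x * lam ^ 2 : ℝ) : ℂ) := by
    have : Real.exp (x + 2 * Real.log lam) = Real.exp x * lam ^ 2 := by
      rw [Real.exp_add, two_mul, Real.exp_add, Real.exp_log lam_pos, sq]
    rw [← this]
    apply Complex.ext <;> simp [pt, -Complex.ofReal_exp]
  rw [e1, e2]
  have hm : (mu : ℂ) ≠ 0 := by exact_mod_cast mu_pos.ne'
  have hlm : (lam : ℂ) * mu = 1 := by exact_mod_cast lam_mul_mu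
  push_cast
  rw [zero_mul, zero_add, add_zero, div_eq_iff hm]
  linear_combination (-(Complex.I * Complex.exp x * lam)) * hlm

lemma alG_snd_smul : alG.2 • pt 0 = pt 0 := by
  apply UpperHalfPlane.ext
  rw [UpperHalfPlane.coe_specialLinearGroup_apply]
  have h00 : alG.2 0 0 = cc := congrFun (congrFun alG_snd 0) 0
  have h01 : alG.2 0 1 = -ss := congrFun (congrFun alG_snd 0) 1
  have h10 : alG.2 1 0 = ss := congrFun (congrFun alG_snd 1) 0
  have h11 : alG.2 1 1 = cc := congrFun (congrFun alG_snd 1) 1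
  simp only [Algebra.algebraMap_self, RingHom.id_apply, h00, h01, h10, h11]
  have e1 : ((pt 0 : UpperHalfPlane) : ℂ) = Complex.I := by
    apply Complex.ext <;> simp [pt]
  rw [e1]
  have hne : (ss : ℂ) * Complex.I + cc ≠ 0 := by
    intro h
    have := congrArg Complex.im h
    simp at this
    exact ss_pos.ne' this
  rw [div_eq_iff hne]
  push_cast
  linear_combination (-(ss : ℂ)) * Complex.I_mul_I

/-- The flat through `(i, i)`. -/
noncomputable def fl (x y : ℝ) : HH := WithLp.toLp 2 (pt x, pt y)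

lemma dist_fl (x y x' y' : ℝ) : dist (fl x y) (fl x' y') = √(dist x x' ^ 2 + dist y y' ^ 2) := by
  rw [HH_dist_eq]
  change √(dist (pt x) (pt x') ^ 2 + dist (pt y) (pt y') ^ 2) = _
  rw [dist_pt, dist_pt]

lemma act_alG (t : ℝ) : act alG (fl t 0) = fl (t + 2 * Real.log lam) 0 := by
  change WithLp.toLp 2 (alG.1 • pt t, alG.2 • pt 0) = _
  rw [alG_fst_smul, alG_snd_smul]
  rfl

lemma act_mul (g h : SL(2, ℝ) × SL(2, ℝ)) (p : HH) : act (g * h) p = act g (act h p) := by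
  change WithLp.toLp 2 ((g.1 * h.1) • p.fst, (g.2 * h.2) • p.snd) =
    WithLp.toLp 2 (g.1 • h.1 • p.fst, g.2 • h.2 • p.snd)
  rw [mul_smul, mul_smul]

lemma act_alG_pow (t : ℝ) : act (alG ^ 5) (fl t 0) = fl (t + 10 * Real.log lam) 0 := by
  have : alG ^ 5 = alG * (alG * (alG * (alG * alG))) := by
    simp only [pow_succ, pow_zero, one_mul, mul_assoc]
  rw [this, act_mul, act_mul, act_mul, act_mul, act_alG, act_alG, act_alG, act_alG, act_alG]
  congr 1
  ring

lemma isAxis : IsAxis (alG ^ 5) (fun t => fl t 0) := by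
  refine ⟨Isometry.of_dist_eq fun x y => ?_, 10 * Real.log lam, ?_, act_alG_pow⟩
  · rw [dist_fl, dist_self]
    simp [Real.sqrt_sq dist_nonneg]
  · have := Real.log_pos one_lt_lam
    positivity

lemma boundsFlat : BoundsFlatHalfPlane (fun t => fl t 0) := by
  refine ⟨fun p => fl (p.1 0) (p.1 1), Isometry.of_dist_eq fun p q => ?_, fun t => ?_⟩
  · rw [dist_fl, Subtype.dist_eq, EuclideanSpace.dist_eq, Fin.sum_univ_two]
  · simp

lemma not_rankOne : ¬ IsRankOne (alG ^ 5) := fun h => h _ isAxis boundsFlat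

end Pool.Agent.Work.MP_adbdc7_gt
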