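import Mathlib

/-!
Isometries of the product `ℍ × ℍ` of two hyperbolic planes, axes, flat half-planes, rank one
isometries, stable centralisers: the definitions used in the final statement.
-/

open scoped MatrixGroups UpperHalfPlane

namespace Pool.Agent.Work.MP_adbdc7_gt.Spec

/-- The Riemannian product `ℍ × ℍ` of two hyperbolic planes, with its distance
`√(d(z, z')² + d(w, w')²)`. -/
abbrev HH : Type := WithLp 2 (ℍ × ℍ)

/-- The action of `SL₂(ℝ) × SL₂(ℝ)` on `ℍ × ℍ` by Möbius transformations in each factor. -/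
noncomputable def act (g : SL(2, ℝ) × SL(2, ℝ)) (p : HH) : HH :=
  WithLp.toLp 2 (g.1 • p.fst, g.2 • p.snd)

/-- The subgroup `Γ` acts on `ℍ × ℍ` by isometries, freely, properly discontinuously and
cocompactly, i.e. `Γ \ (ℍ × ℍ)` is a compact manifold with universal cover `ℍ × ℍ` and deck
transformation group `Γ`. -/
structure IsUniformLattice (Γ : Subgroup (SL(2, ℝ) × SL(2, ℝ))) : Prop where
  isometric : ∀ g ∈ Γ, Isometry (act g)
  free : ∀ g ∈ Γ, g ≠ 1 → ∀ p : HH, act g p ≠ p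
  proper : ∀ K : Set HH, IsCompact K → {g | g ∈ Γ ∧ (act g '' K ∩ K).Nonempty}.Finite
  cocompact : ∃ K : Set HH, IsCompact K ∧ ∀ p : HH, ∃ g ∈ Γ, act g p ∈ K

/-- `c` is an axis of `g`: a geodesic line on which `g` acts as a nontrivial translation. -/
def IsAxis (g : SL(2, ℝ) × SL(2, ℝ)) (c : ℝ → HH) : Prop :=
  Isometry c ∧ ∃ τ : ℝ, τ ≠ 0 ∧ ∀ t, act g (c t) = c (t + τ)

/-- The geodesic line `c` bounds a flat half-plane. -/
def BoundsFlatHalfPlane (c : ℝ → HH) : Prop :=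
  ∃ F : {p : EuclideanSpace ℝ (Fin 2) // 0 ≤ p 1} → HH,
    Isometry F ∧ ∀ t : ℝ, F ⟨!₂[t, 0], by simp⟩ = c t

/-- `g` defines a rank-one isometry of `ℍ × ℍ`: no axis of `g` bounds a flat half-plane. -/
def IsRankOne (g : SL(2, ℝ) × SL(2, ℝ)) : Prop :=
  ∀ c : ℝ → HH, IsAxis g c → ¬ BoundsFlatHalfPlane c

/-- The stable centraliser of `g` in `G`: all `h` commuting with some power `g ^ n`, `n ≥ 1`. -/
def stableCentralizer {G : Type*} [Group G] (g : G) : Subgroup G where
  carrier := {h | ∃ n : ℕ, 1 ≤ n ∧ h * g ^ n = g ^ n * h}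
  one_mem' := ⟨1, le_rfl, by simp⟩
  mul_mem' := by
    rintro a b ⟨n, hn, ha⟩ ⟨m, hm, hb⟩
    refine ⟨n * m, Nat.mul_pos hn hm, ?_⟩
    have h1 : Commute a (g ^ (n * m)) := by
      rw [pow_mul]; exact Commute.pow_right ha m
    have h2 : Commute b (g ^ (n * m)) := by
      rw [mul_comm, pow_mul]; exact Commute.pow_right hb n
    exact h1.mul_left h2
  inv_mem' := by
    rintro a ⟨n, hn, ha⟩
    exact ⟨n, hn, Commute.inv_left ha⟩

end Pool.Agent.Work.MP_adbdc7_gt.Spec
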