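import Pool.Agent.Work.MP_adbdc7_gt.Split
import Pool.Agent.Work.MP_adbdc7_gt.Statement

/-!
The group `Γ` of norm one elements of the order congruent to `1` modulo `3`, and the freeness of its
action.
-/

open scoped Quaternion MatrixGroups UpperHalfPlane

namespace Pool.Agent.Work.MP_adbdc7_gt

open Spec

/-- The element of `SL₂(ℝ) × SL₂(ℝ)` given by an element of norm one. -/
noncomputable def toG (x : O) (h : nrd x = 1) : SL(2, ℝ) × SL(2, ℝ) :=
  (⟨M1 x, by rw [det_M1, h, map_one]⟩, ⟨M2 x, by rw [det_M2, h, map_one]⟩)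

lemma M1_injective : Function.Injective M1 := by
  intro x y h
  have h00 := congrFun (congrFun h 0) 0
  have h01 := congrFun (congrFun h 0) 1
  have h10 := congrFun (congrFun h 1) 0
  have h11 := congrFun (congrFun h 1) 1
  simp only [M1, N1, Matrix.of_apply, Matrix.cons_val', Matrix.cons_val_zero,
    Matrix.cons_val_fin_one, Matrix.cons_val_one] at h00 h01 h10 h11
  have hl := lam_ne_mu
  have e1 : s1 x.imI = s1 y.imI := by
    apply mul_right_cancel₀ hl; linear_combination h00 - h11
  have e3 : s1 x.imK = s1 y.imK := by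
    apply mul_right_cancel₀ hl; linear_combination h01 / 7 - h10
  have e0 : s1 x.re = s1 y.re := by rw [e1] at h00; linarith
  have e2 : s1 x.imJ = s1 y.imJ := by rw [e3] at h10; linarith
  exact QuaternionAlgebra.ext (s1_injective e0) (s1_injective e1) (s1_injective e2)
    (s1_injective e3)

lemma star_one_add (b : O) : 1 + 3 * star b = star (1 + 3 * b) := by
  have h3 : (star b) * 3 = 3 * star b := (Nat.cast_commute 3 (star b)).symm.eq
  have h3' : star (3 : O) = 3 := star_ofNat 3
  rw [star_add, star_one, star_mul, h3', h3]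

/-- The group `Γ`. -/
noncomputable def Gam : Subgroup (SL(2, ℝ) × SL(2, ℝ)) where
  carrier := {g | ∃ (b : O) (h : nrd (1 + 3 * b) = 1), g = toG (1 + 3 * b) h}
  one_mem' := ⟨0, by rw [mul_zero, add_zero, nrd_one], by
    refine Prod.ext (Subtype.ext ?_) (Subtype.ext ?_)
    · simp only [toG, mul_zero, add_zero, M1_one]; rfl
    · simp only [toG, mul_zero, add_zero, M2_one]; rfl⟩
  mul_mem' := by
    rintro _ _ ⟨b, hb, rfl⟩ ⟨c, hc, rfl⟩
    have key : 1 + 3 * (b + c + 3 * (b * c)) = (1 + 3 * b) * (1 + 3 * c) := by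
      have h3 : b * 3 = 3 * b := (Nat.cast_commute 3 b).symm.eq
      calc 1 + 3 * (b + c + 3 * (b * c)) = 1 + 3 * b + 3 * c + 3 * (3 * b) * c := by noncomm_ring
        _ = (1 + 3 * b) * (1 + 3 * c) := by rw [← h3]; noncomm_ring
    refine ⟨b + c + 3 * (b * c), by rw [key, nrd_mul, hb, hc, one_mul], ?_⟩
    refine Prod.ext (Subtype.ext ?_) (Subtype.ext ?_)
    · simp only [toG, key, M1_mul]; rfl
    · simp only [toG, key, M2_mul]; rfl
  inv_mem' := by
    rintro _ ⟨b, hb, rfl⟩
    have key : 1 + 3 * star b = star (1 + 3 * b) := star_one_add b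
    have hb' : nrd (1 + 3 * star b) = 1 := by rw [key, nrd_star, hb]
    refine ⟨star b, hb', ?_⟩
    refine inv_eq_of_mul_eq_one_left ?_
    refine Prod.ext (Subtype.ext ?_) (Subtype.ext ?_)
    · have h1 := M1_star_mul (1 + 3 * b)
      rw [hb, map_one, one_smul, ← key] at h1
      exact h1
    · have h1 := M2_star_mul (1 + 3 * b)
      rw [hb, map_one, one_smul, ← key] at h1
      exact h1

/-- The trace of an elliptic or central element. -/
lemma tr_sq_le {g : SL(2, ℝ)} {z : UpperHalfPlane} (h : g • z = z) :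
    (g 0 0 + g 1 1) ^ 2 ≤ 4 := by
  have h1 := UpperHalfPlane.coe_specialLinearGroup_apply g z
  rw [h] at h1
  simp only [Algebra.algebraMap_self, RingHom.id_apply] at h1
  have hden : ((g 1 0 : ℝ) : ℂ) * z + ((g 1 1 : ℝ) : ℂ) ≠ 0 := by
    intro h0
    rw [h0, div_zero] at h1
    have := z.im_pos
    rw [← UpperHalfPlane.coe_im, h1] at this
    simp at this
  rw [eq_div_iff hden] at h1
  have hdet : g 0 0 * g 1 1 - g 0 1 * g 1 0 = 1 := by
    have := g.2
    rwa [Matrix.det_fin_two] at this
  have hre := congrArg Complex.re h1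
  have him := congrArg Complex.im h1
  simp only [Complex.mul_re, Complex.add_re, Complex.ofReal_re, Complex.ofReal_im,
    Complex.mul_im, Complex.add_im, UpperHalfPlane.coe_re, UpperHalfPlane.coe_im] at hre him
  have hy := z.im_pos
  generalize z.re = x at *
  generalize z.im = y at *
  generalize g 0 0 = a at *
  generalize g 0 1 = b at *
  generalize g 1 0 = c at *
  generalize g 1 1 = d at *
  have e1 : a - d = 2 * c * x := by
    have : y * (a - d - 2 * c * x) = 0 := by linear_combination -him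
    rcases mul_eq_zero.1 this with h | h
    · exact absurd h hy.ne'
    · linarith
  have e2 : b = -c * (x ^ 2 + y ^ 2) := by
    have : a = d + 2 * c * x := by linarith
    rw [this] at hre
    linarith
  have e3 : (a + d) ^ 2 = 4 - 4 * c ^ 2 * y ^ 2 := by
    have : (a + d) ^ 2 = (a - d) ^ 2 + 4 * (a * d) := by ring
    rw [this, e1]
    have : a * d = 1 + b * c := by linarith
    rw [this, e2]
    ring
  rw [e3]
  nlinarith [mul_nonneg (sq_nonneg c) (sq_nonneg y)]

lemma three_re : (3 : O).re = 3 := rfl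
lemma three_imI : (3 : O).imI = 0 := rfl
lemma three_imJ : (3 : O).imJ = 0 := rfl
lemma three_imK : (3 : O).imK = 0 := rfl

lemma re_three_mul (b : O) : (3 * b).re = 3 * b.re := by
  simp [QuaternionAlgebra.re_mul, three_re, three_imI, three_imJ, three_imK]

lemma imI_three_mul (b : O) : (3 * b).imI = 3 * b.imI := by
  simp [QuaternionAlgebra.imI_mul, three_re, three_imI, three_imJ, three_imK]

lemma imJ_three_mul (b : O) : (3 * b).imJ = 3 * b.imJ := by
  simp [QuaternionAlgebra.imJ_mul, three_re, three_imI, three_imJ, three_imK]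

lemma imK_three_mul (b : O) : (3 * b).imK = 3 * b.imK := by
  simp [QuaternionAlgebra.imK_mul, three_re, three_imI, three_imJ, three_imK]

lemma nrd_one_add (b : O) : nrd (1 + 3 * b) = 1 + 3 * (2 * b.re + tt * b.imI) + 9 * nrd b := by
  simp only [nrd, QuaternionAlgebra.re_add, QuaternionAlgebra.imI_add, QuaternionAlgebra.imJ_add,
    QuaternionAlgebra.imK_add, QuaternionAlgebra.re_one, QuaternionAlgebra.imI_one,
    QuaternionAlgebra.imJ_one, QuaternionAlgebra.imK_one, re_three_mul, imI_three_mul,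
    imJ_three_mul, imK_three_mul]
  ring

/-- The reduced trace. -/
def trd (x : O) : R := 2 * x.re + tt * x.imI

lemma tr_M1 (x : O) : M1 x 0 0 + M1 x 1 1 = s1 (trd x) := by
  have h2 : s1 2 = 2 := map_ofNat s1 2
  have key : s1 tt = lam + mu := by rw [s1_tt, lam_add_mu]
  simp only [M1, N1, trd, map_add, map_mul, h2, key, Matrix.of_apply, Matrix.cons_val',
    Matrix.cons_val_zero, Matrix.cons_val_fin_one, Matrix.cons_val_one]
  ring

lemma tr_M2 (x : O) : M2 x 0 0 + M2 x 1 1 = s2 (trd x) := by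
  have h2 : s2 2 = 2 := map_ofNat s2 2
  have key : s2 tt = 2 * cc := by rw [s2_tt, two_cc]
  simp only [M2, N2, trd, map_add, map_mul, h2, key, Matrix.of_apply, Matrix.cons_val',
    Matrix.cons_val_zero, Matrix.cons_val_fin_one, Matrix.cons_val_one]
  ring

lemma trd_one_add {b : O} (h : nrd (1 + 3 * b) = 1) : trd (1 + 3 * b) = 2 - 9 * nrd b := by
  have h1 := nrd_one_add b
  rw [h] at h1
  simp only [trd, QuaternionAlgebra.re_add, QuaternionAlgebra.imI_add, QuaternionAlgebra.re_one,
    QuaternionAlgebra.imI_one, re_three_mul, imI_three_mul]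
  linear_combination -h1

/-- Freeness of the action. -/
lemma free_aux {b : O} (h : nrd (1 + 3 * b) = 1) (h1 : (s1 (trd (1 + 3 * b))) ^ 2 ≤ 4)
    (h2 : (s2 (trd (1 + 3 * b))) ^ 2 ≤ 4) : b = 0 := by
  rw [trd_one_add h] at h1 h2
  have e2 : s1 2 = 2 := map_ofNat s1 2
  have e2' : s2 2 = 2 := map_ofNat s2 2
  have e9 : s1 9 = 9 := map_ofNat s1 9
  have e9' : s2 9 = 9 := map_ofNat s2 9
  rw [map_sub, map_mul, e2, e9] at h1
  rw [map_sub, map_mul, e2', e9'] at h2
  have hn := s1_mul_s2 (nrd b)
  generalize hx : s1 (nrd b) = x at *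
  generalize hy : s2 (nrd b) = y at *
  have hx1 : 0 ≤ x := by nlinarith
  have hx2 : x ≤ 4 / 9 := by nlinarith
  have hy1 : 0 ≤ y := by nlinarith
  have hy2 : y ≤ 4 / 9 := by nlinarith
  have hlt : x * y < 1 := by nlinarith
  have hge : 0 ≤ x * y := mul_nonneg hx1 hy1
  rw [hn] at hlt hge
  have hlt' : (nrd b).norm < 1 := by exact_mod_cast hlt
  have hge' : 0 ≤ (nrd b).norm := by exact_mod_cast hge
  have h0 : (nrd b).norm = 0 := by omega
  rw [norm_eq_zero', nrd_eq_zero] at h0
  exact h0

lemma Gam_free : ∀ g ∈ Gam, g ≠ 1 → ∀ p : HH, act g p ≠ p := by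
  rintro _ ⟨b, hb, rfl⟩ hne p hp
  apply hne
  have h1 : (toG (1 + 3 * b) hb).1 • p.fst = p.fst := congrArg WithLp.fst hp
  have h2 : (toG (1 + 3 * b) hb).2 • p.snd = p.snd := congrArg WithLp.snd hp
  have t1 := tr_sq_le h1
  have t2 := tr_sq_le h2
  have hb0 : b = 0 := by
    apply free_aux hb
    · rw [← tr_M1]; exact t1
    · rw [← tr_M2]; exact t2
  subst hb0
  refine Prod.ext (Subtype.ext ?_) (Subtype.ext ?_)
  · simp only [toG, mul_zero, add_zero, M1_one]; rfl
  · simp only [toG, mul_zero, add_zero, M2_one]; rfl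

end Pool.Agent.Work.MP_adbdc7_gt
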