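import Pool.Agent.Work.MP_adbdc7_gt.Cocompact
import Pool.Agent.Work.MP_adbdc7_gt.Centralizer

/-!
The main theorem.
-/

open scoped MatrixGroups

namespace Pool.Agent.Work.MP_adbdc7_gt

open Spec

theorem main : ∃ Γ : Subgroup (SL(2, ℝ) × SL(2, ℝ)), IsUniformLattice Γ ∧
    ∃ g : Γ, g ≠ 1 ∧ ¬ IsRankOne (g : SL(2, ℝ) × SL(2, ℝ)) ∧
      Nonempty (stableCentralizer g ≃* Multiplicative ℤ) := by
  refine ⟨Gam, Gam_lattice, gg, ?_, not_rankOne, SC_cyclic⟩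
  intro h
  have h1 : (alG ^ 5).1 0 0 = 1 := by
    have := congrArg (fun A : Gam => A.1.1 0 0) h
    have h2 : (alG ^ 5).1 0 0 = (1 : SL(2, ℝ)) 0 0 := this
    rw [h2]
    simp
  have e : (alG ^ 5).1 0 0 = lam ^ 5 := by
    rw [Prod.pow_fst]
    exact congrFun (congrFun (alG_fst_pow 5) 0) 0
  rw [e] at h1
  exact absurd h1 (one_lt_pow₀ one_lt_lam (by norm_num)).ne'

end Pool.Agent.Work.MP_adbdc7_gt
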