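import Pool.Agent.Work.MP_adbdc7_gt.Proper

/-!
Minkowski's theorem: for every `g ∈ SL₂(ℝ) × SL₂(ℝ)` there is a nonzero element `x` of the order
with `x g` bounded.
-/

open scoped MatrixGroups
open MeasureTheory

namespace Pool.Agent.Work.MP_adbdc7_gt

/-- The index type of coordinates. -/
abbrev Idx : Type := Fin 2 × (Fin 2 × Fin 2)

/-- Coordinates at the first place. -/
noncomputable def c1 (v : Idx → ℝ) (q : Fin 2 × Fin 2) : ℝ := v (0, q) + v (1, q) * √2

/-- Coordinates at the second place. -/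
noncomputable def c2 (v : Idx → ℝ) (q : Fin 2 × Fin 2) : ℝ := v (0, q) - v (1, q) * √2

/-- The two splittings in real coordinates. -/
noncomputable def NN (v : Idx → ℝ) : Fin 2 → Matrix (Fin 2) (Fin 2) ℝ :=
  ![N1 (c1 v (0, 0)) (c1 v (0, 1)) (c1 v (1, 0)) (c1 v (1, 1)),
    N2 (c2 v (0, 0)) (c2 v (0, 1)) (c2 v (1, 0)) (c2 v (1, 1))]

/-- The two splittings as a linear map. -/
noncomputable def EE : (Idx → ℝ) →ₗ[ℝ] (Idx → ℝ) where
  toFun v p := NN v p.2.1 p.2.2 p.1
  map_add' v w := by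
    funext ⟨l, k, i⟩
    fin_cases k <;> fin_cases i <;> fin_cases l <;>
      simp [NN, N1, N2, c1, c2] <;> ring
  map_smul' a v := by
    funext ⟨l, k, i⟩
    fin_cases k <;> fin_cases i <;> fin_cases l <;>
      simp [NN, N1, N2, c1, c2] <;> ring

lemma EE_injective : Function.Injective EE := by
  rw [injective_iff_map_eq_zero]
  intro v hv
  have h1 : ∀ i j, |N1 (c1 v (0, 0)) (c1 v (0, 1)) (c1 v (1, 0)) (c1 v (1, 1)) i j| ≤ 0 := by
    intro i j
    have := congrFun hv (j, (0, i))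
    have h' : N1 (c1 v (0, 0)) (c1 v (0, 1)) (c1 v (1, 0)) (c1 v (1, 1)) i j = 0 := this
    rw [h', abs_zero]
  have h2 : ∀ i j, |N2 (c2 v (0, 0)) (c2 v (0, 1)) (c2 v (1, 0)) (c2 v (1, 1)) i j| ≤ 0 := by
    intro i j
    have := congrFun hv (j, (1, i))
    have h' : N2 (c2 v (0, 0)) (c2 v (0, 1)) (c2 v (1, 0)) (c2 v (1, 1)) i j = 0 := this
    rw [h', abs_zero]
  have b1 := N1_bound h1
  have b2 := N2_bound h2
  simp only [mul_zero, zero_mul, add_zero, abs_nonpos_iff] at b1 b2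
  obtain ⟨u0, u1, u2, u3⟩ := b1
  obtain ⟨w0, w1, w2, w3⟩ := b2
  have hs : √2 ≠ 0 := by norm_num
  have key : ∀ q, c1 v q = 0 → c2 v q = 0 → v (0, q) = 0 ∧ v (1, q) = 0 := by
    intro q hq1 hq2
    unfold c1 at hq1
    unfold c2 at hq2
    have e0 : v (0, q) = 0 := by linarith
    refine ⟨e0, ?_⟩
    rw [e0, zero_add] at hq1
    exact (mul_eq_zero.1 hq1).resolve_right hs
  obtain ⟨k0, k0'⟩ := key _ u0 w0
  obtain ⟨k1, k1'⟩ := key _ u1 w1
  obtain ⟨k2, k2'⟩ := key _ u2 w2
  obtain ⟨k3, k3'⟩ := key _ u3 w3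
  funext ⟨e, k, i⟩
  fin_cases k <;> fin_cases i <;> fin_cases e <;> assumption

lemma EE_det_ne : LinearMap.det EE ≠ 0 := by
  intro h
  have := LinearMap.bot_lt_ker_of_det_eq_zero h
  rw [LinearMap.ker_eq_bot.2 EE_injective] at this
  exact lt_irrefl _ this

/-- The block matrix of right multiplication by `g`. -/
noncomputable def TM (g : Fin 2 → SL(2, ℝ)) : Matrix Idx Idx ℝ :=
  Matrix.blockDiagonal fun o : Fin 2 × Fin 2 => (g o.1 : Matrix (Fin 2) (Fin 2) ℝ).transpose

lemma TM_det (g : Fin 2 → SL(2, ℝ)) : (TM g).det = 1 := by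
  rw [TM, Matrix.det_blockDiagonal]
  refine Finset.prod_eq_one fun o _ => ?_
  rw [Matrix.det_transpose]
  exact (g o.1).2

/-- Right multiplication by `g` as a linear map. -/
noncomputable def TT (g : Fin 2 → SL(2, ℝ)) : (Idx → ℝ) →ₗ[ℝ] (Idx → ℝ) := Matrix.toLin' (TM g)

lemma TT_det (g : Fin 2 → SL(2, ℝ)) : LinearMap.det (TT g) = 1 := by
  rw [TT, LinearMap.det_toLin', TM_det]

lemma TT_apply (g : Fin 2 → SL(2, ℝ)) (v : Idx → ℝ) (j k i : Fin 2) :
    TT g (EE v) (j, (k, i)) = (NN v k * (g k : Matrix (Fin 2) (Fin 2) ℝ)) i j := by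
  rw [TT, Matrix.toLin'_apply, Matrix.mulVec, dotProduct, Fintype.sum_prod_type, Matrix.mul_apply]
  refine Finset.sum_congr rfl fun l _ => ?_
  rw [Finset.sum_eq_single (k, i)]
  · simp only [TM, Matrix.blockDiagonal_apply_eq, Matrix.transpose_apply]
    rw [mul_comm]
    rfl
  · intro o _ ho
    simp only [TM]
    rw [Matrix.blockDiagonal_apply', if_neg (Ne.symm ho), zero_mul]
  · intro h; exact absurd (Finset.mem_univ _) h

/-- The composite linear map. -/
noncomputable def FF (g : Fin 2 → SL(2, ℝ)) : (Idx → ℝ) →ₗ[ℝ] (Idx → ℝ) := TT g ∘ₗ EE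

lemma FF_det (g : Fin 2 → SL(2, ℝ)) : LinearMap.det (FF g) = LinearMap.det EE := by
  rw [FF, LinearMap.det_comp, TT_det, one_mul]

/-- The bound of Minkowski's theorem. -/
noncomputable def rr : ℝ := |LinearMap.det EE| + 1

lemma rr_pos : 0 < rr := by unfold rr; positivity

lemma rr_pow : |LinearMap.det EE| < rr ^ 8 := by
  have h1 : 1 ≤ rr := by unfold rr; linarith [abs_nonneg (LinearMap.det EE)]
  calc |LinearMap.det EE| < rr := by unfold rr; linarith
    _ = rr ^ 1 := (pow_one _).symm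
    _ ≤ rr ^ 8 := pow_le_pow_right₀ h1 (by norm_num)

lemma minkowski (g : Fin 2 → SL(2, ℝ)) :
    ∃ n : Idx → ℤ, n ≠ 0 ∧ ∀ p, |FF g (fun q => (n q : ℝ)) p| < rr := by
  have hdet : LinearMap.det (FF g) ≠ 0 := by rw [FF_det]; exact EE_det_ne
  set b := Pi.basisFun ℝ Idx with hb
  set s : Set (Idx → ℝ) := FF g ⁻¹' (Set.pi Set.univ fun _ => Set.Ioo (-rr) rr) with hs
  have hfund := ZSpan.isAddFundamentalDomain' b (volume : Measure (Idx → ℝ))
  have hvolF : volume (ZSpan.fundamentalDomain b) = 1 := by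
    rw [hb, ZSpan.fundamentalDomain_pi_basisFun, Real.volume_pi_Ico]
    simp
  have hvols : volume s = ENNReal.ofReal |(LinearMap.det EE)⁻¹| * ENNReal.ofReal (2 * rr) ^ 8 := by
    rw [hs, Measure.addHaar_preimage_linearMap _ hdet, FF_det, Real.volume_pi_Ioo]
    congr 1
    rw [Finset.prod_const, Finset.card_univ]
    have : rr - -rr = 2 * rr := by ring
    rw [this]
    simp
  have hconv : Convex ℝ s := by
    apply Convex.linear_preimage
    exact convex_pi fun _ _ => convex_Ioo _ _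
  have hsymm : ∀ x ∈ s, -x ∈ s := by
    intro x hx
    rw [hs, Set.mem_preimage, Set.mem_univ_pi] at hx ⊢
    intro i
    have := hx i
    rw [map_neg, Pi.neg_apply]
    exact ⟨by linarith [this.2], by linarith [this.1]⟩
  have hlt : volume (ZSpan.fundamentalDomain b) * 2 ^ Module.finrank ℝ (Idx → ℝ) < volume s := by
    rw [hvolF, hvols, one_mul, Module.finrank_fintype_fun_eq_card]
    have hcard : Fintype.card Idx = 8 := by simp [Idx]
    rw [hcard]
    have h2 : (2 : ENNReal) ^ 8 = ENNReal.ofReal (2 ^ 8) := by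
      rw [ENNReal.ofReal_pow (by norm_num)]; norm_num
    rw [h2, ← ENNReal.ofReal_pow (by linarith [rr_pos]), ← ENNReal.ofReal_mul (abs_nonneg _)]
    apply (ENNReal.ofReal_lt_ofReal_iff_of_nonneg (by norm_num)).2
    have hpos : 0 < |LinearMap.det EE| := abs_pos.2 EE_det_ne
    rw [abs_inv, mul_pow, inv_mul_eq_div, lt_div_iff₀ hpos]
    have := rr_pow
    nlinarith
  have hcount : Countable (Submodule.span ℤ (Set.range b)).toAddSubgroup := by
    have : Countable (Submodule.span ℤ (Set.range b)) := inferInstance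
    exact this
  obtain ⟨x, hx0, hxs⟩ := exists_ne_zero_mem_lattice_of_measure_mul_two_pow_lt_measure hfund
    hsymm hconv hlt
  have hx := x.2
  rw [Submodule.mem_toAddSubgroup, Module.Basis.mem_span_iff_repr_mem] at hx
  choose n hn using hx
  have hnx : (fun q => (n q : ℝ)) = (x : Idx → ℝ) := by
    funext q
    have := hn q
    simpa [hb] using this
  refine ⟨n, ?_, ?_⟩
  · rintro rfl
    apply hx0
    apply Subtype.ext
    rw [← hnx]
    funext q
    simp
  · intro p
    rw [hnx]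
    rw [hs, Set.mem_preimage, Set.mem_univ_pi] at hxs
    exact abs_lt.2 (hxs p)

end Pool.Agent.Work.MP_adbdc7_gt
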