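import Mathlib

/-!
The quaternion order `O = R⟨i, j⟩`, `R = ℤ[√2]`, `i² = -1 + t i`, `t = 1 + √2`, `j² = 7`, its two
real splittings and the anisotropy of its reduced norm.
-/

open scoped Quaternion

namespace Pool.Agent.Work.MP_adbdc7_gt

/-- The ring `ℤ[√2]`. -/
abbrev R : Type := ℤ√2

/-- `t = 1 + √2`. -/
def tt : R := ⟨1, 1⟩

/-- The quaternion order. -/
abbrev O : Type := ℍ[R, -1, tt, 7]

/-- The first real place. -/
noncomputable def s1 : R →+* ℝ := Zsqrtd.lift ⟨√2, by norm_num⟩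

/-- The second real place. -/
noncomputable def s2 : R →+* ℝ := Zsqrtd.lift ⟨-√2, by norm_num⟩

lemma s1_apply (a : R) : s1 a = a.re + a.im * √2 := by
  simp [s1]

lemma s2_apply (a : R) : s2 a = a.re - a.im * √2 := by
  simp [s2]
  ring

lemma s1_mul_s2 (a : R) : s1 a * s2 a = (a.norm : ℝ) := by
  rw [s1_apply, s2_apply, Zsqrtd.norm_def]
  have h : √2 * √2 = (2 : ℝ) := by norm_num
  push_cast
  linear_combination (- (a.im : ℝ) * a.im) * h

lemma not_square : ∀ n : ℤ, (2 : ℤ) ≠ n * n := by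
  intro n h
  have h1 : n ≤ 1 := by nlinarith
  have h2 : -1 ≤ n := by nlinarith
  interval_cases n <;> simp at h

lemma norm_eq_zero' {a : R} : a.norm = 0 ↔ a = 0 := Zsqrtd.norm_eq_zero not_square a

lemma s1_injective : Function.Injective s1 := Zsqrtd.lift_injective _ not_square

lemma s2_injective : Function.Injective s2 := Zsqrtd.lift_injective _ not_square

lemma s1_eq_zero {a : R} : s1 a = 0 ↔ a = 0 := by
  rw [← map_zero s1]; exact s1_injective.eq_iff

lemma s2_eq_zero {a : R} : s2 a = 0 ↔ a = 0 := by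
  rw [← map_zero s2]; exact s2_injective.eq_iff

lemma s1_tt : s1 tt = 1 + √2 := by simp [s1_apply, tt]

lemma s2_tt : s2 tt = 1 - √2 := by simp [s2_apply, tt]

/-- Elements of `R` bounded at both places form a finite set. -/
lemma finite_bounded (B : ℝ) : {a : R | |s1 a| ≤ B ∧ |s2 a| ≤ B}.Finite := by
  obtain ⟨N, hN⟩ := exists_nat_ge B
  have hsub : {a : R | |s1 a| ≤ B ∧ |s2 a| ≤ B} ⊆
      (fun p : ℤ × ℤ => (⟨p.1, p.2⟩ : R)) '' (Set.Icc (-(N : ℤ)) N ×ˢ Set.Icc (-(N : ℤ)) N) := by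
    rintro a ⟨h1, h2⟩
    rw [s1_apply, abs_le] at h1
    rw [s2_apply, abs_le] at h2
    refine ⟨(a.re, a.im), ⟨⟨?_, ?_⟩, ?_, ?_⟩, rfl⟩
    · have : (-(N : ℝ)) ≤ a.re := by linarith
      exact_mod_cast this
    · have : (a.re : ℝ) ≤ N := by linarith
      exact_mod_cast this
    · have h : 1 ≤ √2 := Real.one_le_sqrt.2 (by norm_num)
      have : (-(N : ℝ)) ≤ a.im := by nlinarith
      exact_mod_cast this
    · have h : 1 ≤ √2 := Real.one_le_sqrt.2 (by norm_num)
      have : (a.im : ℝ) ≤ N := by nlinarith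
      exact_mod_cast this
  exact (((Set.finite_Icc _ _).prod (Set.finite_Icc _ _)).image _).subset hsub

/-- The reduced norm. -/
def nrd (x : O) : R :=
  x.re ^ 2 + tt * x.re * x.imI + x.imI ^ 2 - 7 * (x.imJ ^ 2 + tt * x.imJ * x.imK + x.imK ^ 2)

lemma nrd_mul (x y : O) : nrd (x * y) = nrd x * nrd y := by
  simp only [nrd, QuaternionAlgebra.re_mul, QuaternionAlgebra.imI_mul, QuaternionAlgebra.imJ_mul,
    QuaternionAlgebra.imK_mul]
  ring

lemma nrd_one : nrd 1 = 1 := by simp [nrd]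

lemma nrd_star (x : O) : nrd (star x) = nrd x := by
  simp only [nrd, QuaternionAlgebra.re_star, QuaternionAlgebra.imI_star,
    QuaternionAlgebra.imJ_star, QuaternionAlgebra.imK_star]
  ring

lemma mul_star_eq (x : O) : x * star x = (nrd x : R) • (1 : O) := by
  apply QuaternionAlgebra.ext <;> simp [nrd] <;> ring

lemma star_mul_eq (x : O) : star x * x = (nrd x : R) • (1 : O) := by
  apply QuaternionAlgebra.ext <;> simp [nrd] <;> ring

/-- Reduction modulo the prime `3 - √2` above `7`. -/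
def phi : R →+* ZMod 7 := Zsqrtd.lift ⟨3, by decide⟩

lemma phi_apply (a : R) : phi a = a.re + a.im * 3 := by
  simp [phi]

/-- The prime `3 - √2`. -/
def pp : R := ⟨3, -1⟩

/-- The conjugate prime `3 + √2`. -/
def pp' : R := ⟨3, 1⟩

lemma pp_mul : pp * pp' = 7 := by decide

lemma phi_ker {a : R} (h : phi a = 0) : ∃ b, a = pp * b := by
  rw [phi_apply] at h
  have h7 : ((a.re + a.im * 3 : ℤ) : ZMod 7) = 0 := by push_cast; exact h
  rw [ZMod.intCast_zmod_eq_zero_iff_dvd] at h7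
  obtain ⟨k, hk⟩ := h7
  push_cast at hk
  -- a = re + im √2, with re = 7k - 3 im; b = (3k - im... )
  refine ⟨⟨3 * k - a.im, k⟩, ?_⟩
  ext
  · simp [pp]; linarith
  · simp [pp]

lemma aniso7 : ∀ a b : ZMod 7, a ^ 2 + 4 * a * b + b ^ 2 = 0 → a = 0 ∧ b = 0 := by decide

lemma phi_tt : phi tt = 4 := by decide

/-- The norm form of `R[i]`. -/
def qq (a b : R) : R := a ^ 2 + tt * a * b + b ^ 2

lemma qq_phi {a b : R} (h : phi (qq a b) = 0) : ∃ a' b', a = pp * a' ∧ b = pp * b' := by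
  have : phi a ^ 2 + 4 * phi a * phi b + phi b ^ 2 = 0 := by
    rw [← h, qq, map_add, map_add, map_mul, map_mul, map_pow, map_pow, phi_tt]
  obtain ⟨h1, h2⟩ := aniso7 _ _ this
  obtain ⟨a', ha⟩ := phi_ker h1
  obtain ⟨b', hb⟩ := phi_ker h2
  exact ⟨a', b', ha, hb⟩

lemma pp_ne_zero : pp ≠ 0 := by decide

lemma norm_pp : pp.norm = 7 := by decide

instance : IsDomain R := s1_injective.isDomain s1

lemma norm_qq_descent {x0 x1 x2 x3 : R} (h : qq x0 x1 = 7 * qq x2 x3) :
    ∃ y0 y1 y2 y3 : R, x0 = pp * y0 ∧ x1 = pp * y1 ∧ x2 = pp * y2 ∧ x3 = pp * y3 ∧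
      qq y0 y1 = 7 * qq y2 y3 := by
  have hpp : phi pp = 0 := by decide
  have h1 : phi (qq x0 x1) = 0 := by
    rw [h, ← pp_mul, map_mul, map_mul, hpp, zero_mul, zero_mul]
  obtain ⟨y0, y1, hy0, hy1⟩ := qq_phi h1
  have h2 : pp * qq y0 y1 = pp' * qq x2 x3 := by
    apply mul_left_cancel₀ pp_ne_zero
    calc pp * (pp * qq y0 y1) = qq x0 x1 := by rw [hy0, hy1]; simp only [qq]; ring
      _ = pp * (pp' * qq x2 x3) := by rw [h, ← pp_mul, mul_assoc]
  have h3 : phi (qq x2 x3) = 0 := by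
    have h4 : phi pp' * phi (qq x2 x3) = 0 := by
      rw [← map_mul, ← h2, map_mul, hpp, zero_mul]
    have h5 : phi pp' = 6 := by decide
    rw [h5] at h4
    generalize phi (qq x2 x3) = z at h4
    revert z
    decide
  obtain ⟨y2, y3, hy2, hy3⟩ := qq_phi h3
  refine ⟨y0, y1, y2, y3, hy0, hy1, hy2, hy3, ?_⟩
  apply mul_left_cancel₀ pp_ne_zero
  rw [h2, hy2, hy3, ← pp_mul]
  simp only [qq]
  ring

lemma aniso_aux (n : ℕ) : ∀ x0 x1 x2 x3 : R,
    x0.norm.natAbs + x1.norm.natAbs + x2.norm.natAbs + x3.norm.natAbs = n →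
    qq x0 x1 = 7 * qq x2 x3 → x0 = 0 ∧ x1 = 0 ∧ x2 = 0 ∧ x3 = 0 := by
  induction n using Nat.strong_induction_on with
  | _ n ih =>
    intro x0 x1 x2 x3 hn h
    obtain ⟨y0, y1, y2, y3, h0, h1, h2, h3, hy⟩ := norm_qq_descent h
    by_cases hn0 : n = 0
    · subst hn0
      have e0 : x0.norm.natAbs = 0 := by omega
      have e1 : x1.norm.natAbs = 0 := by omega
      have e2 : x2.norm.natAbs = 0 := by omega
      have e3 : x3.norm.natAbs = 0 := by omega
      rw [Int.natAbs_eq_zero, norm_eq_zero'] at e0 e1 e2 e3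
      exact ⟨e0, e1, e2, e3⟩
    · have key : ∀ {x y : R}, x = pp * y → x.norm.natAbs = 7 * y.norm.natAbs := by
        intro x y hxy
        rw [hxy, Zsqrtd.norm_mul, norm_pp, Int.natAbs_mul]
        rfl
      have k0 := key h0
      have k1 := key h1
      have k2 := key h2
      have k3 := key h3
      obtain ⟨g0, g1, g2, g3⟩ := ih (y0.norm.natAbs + y1.norm.natAbs + y2.norm.natAbs +
        y3.norm.natAbs) (by omega) y0 y1 y2 y3 rfl hy
      subst g0 g1 g2 g3
      simp only [mul_zero] at h0 h1 h2 h3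
      exact ⟨h0, h1, h2, h3⟩

/-- The reduced norm is anisotropic. -/
lemma nrd_eq_zero {x : O} : nrd x = 0 ↔ x = 0 := by
  constructor
  · intro h
    have h' : qq x.re x.imI = 7 * qq x.imJ x.imK := by
      simp only [nrd] at h
      simp only [qq]
      linear_combination h
    obtain ⟨h0, h1, h2, h3⟩ := aniso_aux _ _ _ _ _ rfl h'
    exact QuaternionAlgebra.ext h0 h1 h2 h3
  · rintro rfl
    simp [nrd]

end Pool.Agent.Work.MP_adbdc7_gt
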