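import Pool.Agent.Work.MP_adbdc7_gt.Order

/-!
The two real splittings of the quaternion order.
-/

open scoped Quaternion

namespace Pool.Agent.Work.MP_adbdc7_gt

/-- The larger root of `X² - (1 + √2) X + 1`. -/
noncomputable def lam : ℝ := ((1 + √2) + √((1 + √2) ^ 2 - 4)) / 2

/-- The smaller root of `X² - (1 + √2) X + 1`. -/
noncomputable def mu : ℝ := ((1 + √2) - √((1 + √2) ^ 2 - 4)) / 2

lemma sqrt2_sq : √2 ^ 2 = (2 : ℝ) := Real.sq_sqrt (by norm_num)

lemma sqrt2_gt : (1.41 : ℝ) < √2 := Real.lt_sqrt_of_sq_lt (by norm_num)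

lemma sqrt2_lt : √2 < (1.42 : ℝ) := (Real.sqrt_lt' (by norm_num)).2 (by norm_num)

lemma disc_pos : (0 : ℝ) < (1 + √2) ^ 2 - 4 := by nlinarith [sqrt2_gt]

lemma lam_add_mu : lam + mu = 1 + √2 := by unfold lam mu; ring

lemma lam_mul_mu : lam * mu = 1 := by
  have h : √((1 + √2) ^ 2 - 4) ^ 2 = (1 + √2) ^ 2 - 4 := Real.sq_sqrt disc_pos.le
  unfold lam mu
  linear_combination (-1 / 4 : ℝ) * h

lemma mu_lt_lam : mu < lam := by
  have h : 0 < √((1 + √2) ^ 2 - 4) := Real.sqrt_pos.2 disc_pos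
  unfold lam mu
  linarith

lemma mu_pos : 0 < mu := by
  have h1 := lam_mul_mu
  have h2 := lam_add_mu
  have h3 := sqrt2_gt
  by_contra hcon
  push Not at hcon
  have hl : 0 < lam := by linarith
  nlinarith

lemma lam_pos : 0 < lam := mu_pos.trans mu_lt_lam

lemma one_lt_lam : 1 < lam := by
  have h1 := lam_mul_mu
  have h2 := mu_lt_lam
  have h3 := mu_pos
  by_contra hcon
  push Not at hcon
  nlinarith

lemma lam_ne_mu : lam - mu ≠ 0 := sub_ne_zero.2 mu_lt_lam.ne'

/-- Cosine of the rotation. -/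
noncomputable def cc : ℝ := (1 - √2) / 2

/-- Sine of the rotation. -/
noncomputable def ss : ℝ := √(1 - cc ^ 2)

lemma cc_sq_lt : cc ^ 2 < 1 := by
  unfold cc; nlinarith [sqrt2_gt, sqrt2_lt]

lemma two_cc : 2 * cc = 1 - √2 := by unfold cc; ring

lemma ss_pos : 0 < ss := Real.sqrt_pos.2 (by linarith [cc_sq_lt])

lemma cc_ss : cc ^ 2 + ss ^ 2 = 1 := by
  unfold ss
  rw [Real.sq_sqrt (by linarith [cc_sq_lt])]
  ring

lemma sqrt7_sq : √7 ^ 2 = (7 : ℝ) := Real.sq_sqrt (by norm_num)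

lemma sqrt7_pos : 0 < √7 := Real.sqrt_pos.2 (by norm_num)

/-- The first splitting in real coordinates. -/
noncomputable def N1 (a0 a1 a2 a3 : ℝ) : Matrix (Fin 2) (Fin 2) ℝ :=
  !![a0 + a1 * lam, 7 * (a2 + a3 * lam); a2 + a3 * mu, a0 + a1 * mu]

/-- The second splitting in real coordinates. -/
noncomputable def N2 (a0 a1 a2 a3 : ℝ) : Matrix (Fin 2) (Fin 2) ℝ :=
  !![a0 + a1 * cc + √7 * (a2 + a3 * cc), -a1 * ss + √7 * a3 * ss;
     a1 * ss + √7 * a3 * ss, a0 + a1 * cc - √7 * (a2 + a3 * cc)]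

/-- The first splitting. -/
noncomputable def M1 (x : O) : Matrix (Fin 2) (Fin 2) ℝ :=
  N1 (s1 x.re) (s1 x.imI) (s1 x.imJ) (s1 x.imK)

/-- The second splitting. -/
noncomputable def M2 (x : O) : Matrix (Fin 2) (Fin 2) ℝ :=
  N2 (s2 x.re) (s2 x.imI) (s2 x.imJ) (s2 x.imK)

lemma det_M1 (x : O) : (M1 x).det = s1 (nrd x) := by
  simp only [M1, N1, nrd, Matrix.det_fin_two_of, map_add, map_sub, map_mul, map_pow, s1_tt]
  have h7 : s1 7 = 7 := map_ofNat s1 7
  rw [h7, ← lam_add_mu]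
  have h := lam_mul_mu
  linear_combination (s1 x.imI ^ 2 - 7 * s1 x.imK ^ 2) * h

lemma det_M2 (x : O) : (M2 x).det = s2 (nrd x) := by
  simp only [M2, N2, nrd, Matrix.det_fin_two_of, map_add, map_sub, map_mul, map_pow, s2_tt]
  have h7 : s2 7 = 7 := map_ofNat s2 7
  rw [h7, ← two_cc]
  have h := cc_ss
  have h' := sqrt7_sq
  generalize s2 x.re = a
  generalize s2 x.imI = b
  generalize s2 x.imJ = e
  generalize s2 x.imK = f
  linear_combination (b ^ 2 - 7 * f ^ 2) * h + (-(e + f * cc) ^ 2 - f ^ 2 * ss ^ 2) * h'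

lemma M1_mul (x y : O) : M1 (x * y) = M1 x * M1 y := by
  have h := lam_mul_mu
  have h7 : s1 7 = 7 := map_ofNat s1 7
  have key : s1 tt = lam + mu := by rw [s1_tt, lam_add_mu]
  simp only [M1, N1, QuaternionAlgebra.re_mul, QuaternionAlgebra.imI_mul,
    QuaternionAlgebra.imJ_mul, QuaternionAlgebra.imK_mul, map_add, map_sub, map_mul, map_neg,
    map_one, key, h7, Matrix.mul_fin_two]
  generalize s1 x.re = a0
  generalize s1 x.imI = a1
  generalize s1 x.imJ = a2
  generalize s1 x.imK = a3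
  generalize s1 y.re = b0
  generalize s1 y.imI = b1
  generalize s1 y.imJ = b2
  generalize s1 y.imK = b3
  ext i j
  fin_cases i <;> fin_cases j
  · simp only [Fin.zero_eta, Fin.isValue, Matrix.of_apply, Matrix.cons_val', Matrix.cons_val_zero,
      Matrix.cons_val_fin_one]
    linear_combination (a1 * b1 - 7 * a3 * b3) * h
  · simp only [Fin.zero_eta, Fin.mk_one, Fin.isValue, Matrix.of_apply, Matrix.cons_val',
      Matrix.cons_val_one, Matrix.cons_val_zero, Matrix.cons_val_fin_one]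
    linear_combination 7 * (a1 * b3 - a3 * b1) * h
  · simp only [Fin.zero_eta, Fin.mk_one, Fin.isValue, Matrix.of_apply, Matrix.cons_val',
      Matrix.cons_val_one, Matrix.cons_val_zero, Matrix.cons_val_fin_one]
    linear_combination (a1 * b3 - a3 * b1) * h
  · simp only [Fin.mk_one, Fin.isValue, Matrix.of_apply, Matrix.cons_val',
      Matrix.cons_val_one, Matrix.cons_val_fin_one]
    linear_combination (a1 * b1 - 7 * a3 * b3) * h

lemma M2_mul (x y : O) : M2 (x * y) = M2 x * M2 y := by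
  have h := cc_ss
  have hq := sqrt7_sq
  have h7 : s2 7 = 7 := map_ofNat s2 7
  have key : s2 tt = 2 * cc := by rw [s2_tt, two_cc]
  simp only [M2, N2, QuaternionAlgebra.re_mul, QuaternionAlgebra.imI_mul,
    QuaternionAlgebra.imJ_mul, QuaternionAlgebra.imK_mul, map_add, map_sub, map_mul, map_neg,
    map_one, key, h7, Matrix.mul_fin_two]
  generalize s2 x.re = a0
  generalize s2 x.imI = a1
  generalize s2 x.imJ = a2
  generalize s2 x.imK = a3
  generalize s2 y.re = b0
  generalize s2 y.imI = b1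
  generalize s2 y.imJ = b2
  generalize s2 y.imK = b3
  ext i j
  fin_cases i <;> fin_cases j
  · simp only [Fin.zero_eta, Fin.isValue, Matrix.of_apply, Matrix.cons_val', Matrix.cons_val_zero,
      Matrix.cons_val_fin_one]
    linear_combination ((a1 * b1 - 7 * a3 * b3) + √7 * (a1 * b3 - a3 * b1)) * h -
      ((a2 + a3 * cc) * (b2 + b3 * cc) + ss ^ 2 * a3 * b3) * hq
  · simp only [Fin.zero_eta, Fin.mk_one, Fin.isValue, Matrix.of_apply, Matrix.cons_val',
      Matrix.cons_val_one, Matrix.cons_val_zero, Matrix.cons_val_fin_one]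
    linear_combination (-ss * (a2 * b3 - a3 * b2)) * hq
  · simp only [Fin.zero_eta, Fin.mk_one, Fin.isValue, Matrix.of_apply, Matrix.cons_val',
      Matrix.cons_val_one, Matrix.cons_val_zero, Matrix.cons_val_fin_one]
    linear_combination (ss * (a2 * b3 - a3 * b2)) * hq
  · simp only [Fin.mk_one, Fin.isValue, Matrix.of_apply, Matrix.cons_val',
      Matrix.cons_val_one, Matrix.cons_val_fin_one]
    linear_combination ((a1 * b1 - 7 * a3 * b3) - √7 * (a1 * b3 - a3 * b1)) * h -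
      ((a2 + a3 * cc) * (b2 + b3 * cc) + ss ^ 2 * a3 * b3) * hq

lemma M1_one : M1 1 = 1 := by
  simp only [M1, N1, QuaternionAlgebra.re_one, QuaternionAlgebra.imI_one,
    QuaternionAlgebra.imJ_one, QuaternionAlgebra.imK_one, map_one, map_zero]
  ext i j
  fin_cases i <;> fin_cases j <;> simp

lemma M2_one : M2 1 = 1 := by
  simp only [M2, N2, QuaternionAlgebra.re_one, QuaternionAlgebra.imI_one,
    QuaternionAlgebra.imJ_one, QuaternionAlgebra.imK_one, map_one, map_zero]
  ext i j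
  fin_cases i <;> fin_cases j <;> simp

/-- `M1` applied to the conjugate is the adjugate. -/
lemma M1_star_mul (x : O) : M1 (star x) * M1 x = s1 (nrd x) • (1 : Matrix (Fin 2) (Fin 2) ℝ) := by
  rw [← M1_mul, star_mul_eq]
  simp only [M1, N1, QuaternionAlgebra.re_smul, QuaternionAlgebra.imI_smul,
    QuaternionAlgebra.imJ_smul, QuaternionAlgebra.imK_smul, QuaternionAlgebra.re_one,
    QuaternionAlgebra.imI_one, QuaternionAlgebra.imJ_one, QuaternionAlgebra.imK_one, smul_eq_mul,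
    mul_one, mul_zero, map_zero]
  ext i j
  fin_cases i <;> fin_cases j <;> simp

lemma M2_star_mul (x : O) : M2 (star x) * M2 x = s2 (nrd x) • (1 : Matrix (Fin 2) (Fin 2) ℝ) := by
  rw [← M2_mul, star_mul_eq]
  simp only [M2, N2, QuaternionAlgebra.re_smul, QuaternionAlgebra.imI_smul,
    QuaternionAlgebra.imJ_smul, QuaternionAlgebra.imK_smul, QuaternionAlgebra.re_one,
    QuaternionAlgebra.imI_one, QuaternionAlgebra.imJ_one, QuaternionAlgebra.imK_one, smul_eq_mul,
    mul_one, mul_zero, map_zero]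
  ext i j
  fin_cases i <;> fin_cases j <;> simp

end Pool.Agent.Work.MP_adbdc7_gt
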